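import Pool.Agent.Lib_helper57.YF.H

/-!
# Few rounds of queries: `E^NP` in randomized double exponential time, the theorem (MP_675993_lc)
-/

set_option autoImplicit false
set_option linter.unusedSectionVars false

namespace Pool.Agent.CKP

open Pool.Agent.CK

variable {O : Lang}

/-- the search problem of a language in `E^NP`, with one cut and total -/
theorem core_nest {L : Lang} (hL : InENP O L) :
    ∃ (W : ℕ → ℕ → Bool) (ℓ : ℕ → ℕ) (ans : List Unit → ℕ → Bool), Ver O W ℓ ∧ Cut W ℓ ∧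
      (∀ m, ∃ v, W m v = true) ∧ PTime O (fun p : List Unit × ℕ => ans p.1 p.2) ∧
      ∀ (x : List Bool) (s : Bool × ℕ), LeastSpec W (num x) s →
        ans (List.replicate (num x) ()) s.2 = L x := by
  obtain ⟨W0, ℓ0, ans0, hver0, hans0, hansL0⟩ := core_search hL
  refine ⟨WT2 W0 ℓ0, lenT ℓ0, fun u v => ans0 u (v % 2 ^ (ℓ0 u.length + 1)), ver_WT2 hver0,
    cut_WT2 hver0.hb, fun m => ⟨_, NN_valid hver0.hb (m + 1)⟩, ?_, fun x s hs => ?_⟩
  · have h1 : PTime O (fun p : List Unit × ℕ => List.replicate (ℓ0 p.1.length + 1) ()) :=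
      UPoly.comp (g := fun n => ℓ0 n + 1) (UPoly.add hver0.hl (UPoly.const 1)) PTime.id.fst
    have h2 := PTime.modp h1 (PTime.id (O := O) (α := List Unit × ℕ)).snd
    simp only [List.length_replicate] at h2
    exact hans0.comp (PTime.id.fst.pair h2)
  · obtain ⟨t, ht⟩ := least_WT2 hver0.hb hs
    have h1 := hansL0 x _ ht
    simp only [List.length_replicate]
    exact h1

theorem EJ_real {r : ℕ} (hr : 1 ≤ r) (b e2 : ℕ) : ∃ C : ℝ, 0 ≤ C ∧ ∀ n : ℕ,
    ((EJ r (2 * r) b e2 (2 ^ (n + 1)) : ℕ) : ℝ) ≤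
      C * ((2 : ℝ) ^ (n + 1)) ^ (1 / (r : ℝ)) + C := by
  have hr0 : (0 : ℝ) < r := by exact_mod_cast (by omega : 0 < r)
  obtain ⟨K, hK, hsz⟩ := size_le_rpow (δ := 1 / ((2 * r : ℕ) : ℝ)) (by push_cast; positivity)
  refine ⟨1 + 2 * ((b + 2) * (e2 * K + e2 + 1)), by positivity, fun n => ?_⟩
  obtain ⟨N, hN⟩ : ∃ N, N = 2 ^ (n + 1) := ⟨_, rfl⟩
  have hNr : (N : ℝ) = (2 : ℝ) ^ (n + 1) := by rw [hN]; push_cast; rfl
  have hN2 : 2 ≤ N := by
    rw [hN, pow_succ]
    have : 1 ≤ 2 ^ n := Nat.one_le_two_pow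
    omega
  rw [← hN, ← hNr]
  set Y := ((N + 2 : ℕ) : ℝ) ^ (1 / ((2 * r : ℕ) : ℝ)) with hY
  set Z := (N : ℝ) ^ (1 / (r : ℝ)) with hZ
  have hY1 : 1 ≤ Y := by
    rw [hY]
    refine Real.one_le_rpow ?_ (by positivity)
    exact_mod_cast (by omega : 1 ≤ N + 2)
  have hYY : Y * Y ≤ 2 * Z := by
    have h1 : Y * Y = ((N + 2 : ℕ) : ℝ) ^ (1 / (r : ℝ)) := by
      rw [hY, ← Real.rpow_add (by positivity)]
      congr 1
      push_cast
      field_simp
      norm_num
    rw [h1, hZ]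
    have h2 : ((N + 2 : ℕ) : ℝ) ≤ 2 * (N : ℝ) := by exact_mod_cast (by omega : N + 2 ≤ 2 * N)
    have h3 : ((N + 2 : ℕ) : ℝ) ^ (1 / (r : ℝ)) ≤ (2 * (N : ℝ)) ^ (1 / (r : ℝ)) :=
      Real.rpow_le_rpow (by positivity) h2 (by positivity)
    rw [Real.mul_rpow (by norm_num) (by positivity)] at h3
    have h4 : (2 : ℝ) ^ (1 / (r : ℝ)) ≤ 2 := by
      have h5 : (2 : ℝ) ^ (1 / (r : ℝ)) ≤ (2 : ℝ) ^ (1 : ℝ) := by
        refine Real.rpow_le_rpow_of_exponent_le (by norm_num) ?_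
        rw [div_le_one hr0]
        exact_mod_cast hr
      rwa [Real.rpow_one] at h5
    have h6 : 0 ≤ (N : ℝ) ^ (1 / (r : ℝ)) := by positivity
    nlinarith
  have h1 : ((rt r N : ℕ) : ℝ) ≤ Z + 1 := rt_le hr
  have h2 : ((tauJ (2 * r) b N : ℕ) : ℝ) ≤ (b + 2) * Y := by
    unfold tauJ
    have h3 := rt_le (r := 2 * r) (n := N + 2) (by omega)
    push_cast at h3 ⊢
    have h4 : Y = ((N : ℝ) + 2) ^ (1 / (2 * (r : ℝ))) := by rw [hY]; push_cast; rfl
    rw [← h4] at h3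
    nlinarith [Nat.cast_nonneg (α := ℝ) b]
  have h3 : ((sJ e2 N : ℕ) : ℝ) ≤ (e2 * K + e2 + 1) * Y := by
    unfold sJ
    rw [Nat.size_eq_bits_len]
    have h4 := hsz (N + 2) (by omega)
    push_cast at h4 ⊢
    have h5 : Y = ((N : ℝ) + 2) ^ (1 / (2 * (r : ℝ))) := by rw [hY]; push_cast; rfl
    rw [← h5] at h4
    have h6 : (0 : ℝ) ≤ e2 := Nat.cast_nonneg _
    have h7 := mul_le_mul_of_nonneg_left h4 h6
    nlinarith
  unfold EJ
  push_cast
  have h4 : ((tauJ (2 * r) b N : ℕ) : ℝ) * ((sJ e2 N : ℕ) : ℝ) ≤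
      ((b + 2) * Y) * ((e2 * K + e2 + 1) * Y) :=
    mul_le_mul h2 h3 (by positivity) (by positivity)
  have h5 : ((b + 2) * Y) * ((e2 * K + e2 + 1) * Y) =
      ((b + 2) * (e2 * K + e2 + 1)) * (Y * Y) := by ring
  rw [h5] at h4
  have h6 : ((b + 2) * (e2 * K + e2 + 1)) * (Y * Y) ≤
      ((b + 2) * (e2 * K + e2 + 1)) * (2 * Z) :=
    mul_le_mul_of_nonneg_left hYY (by positivity)
  have h7 : (0 : ℝ) ≤ (b + 2) * (e2 * K + e2 + 1) := by positivity
  nlinarith

/-- the number of random bits -/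
theorem exists_k0 {ℓ : ℕ → ℕ} (hl : UPoly O ℓ) : ∃ k0 : ℕ, ∀ (n m : ℕ), m ≤ 2 ^ (n + 1) →
    ℓ m * eJ (ℓ m) ≤ 2 ^ (k0 * (n + 1)) := by
  obtain ⟨PL, hPL⟩ := hl.bound
  obtain ⟨κ, hκ⟩ := exists_pow (PL * (16 * (PL * PL)))
  refine ⟨2 * κ, fun n m hm => ?_⟩
  obtain ⟨N, hN⟩ : ∃ N, N = 2 ^ (n + 1) := ⟨_, rfl⟩
  rw [← hN] at hm
  have hN2 : 2 ≤ N := by
    rw [hN, pow_succ]
    have : 1 ≤ 2 ^ n := Nat.one_le_two_pow
    omega
  have h1 : ℓ m ≤ PL.eval N := (hPL m).trans (poly_mono PL hm)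
  have h2 : ℓ m * eJ (ℓ m) ≤ ℓ m * (16 * (ℓ m * ℓ m)) := by
    rcases Nat.eq_zero_or_pos (ℓ m) with h0 | h0
    · rw [h0]; simp
    · exact Nat.mul_le_mul_left _ ((Nat.lt_two_pow_self).le.trans (eJ_hi h0))
  have h3 : ℓ m * (16 * (ℓ m * ℓ m)) ≤ PL.eval N * (16 * (PL.eval N * PL.eval N)) := by
    gcongr
  have h4 := hκ N
  simp only [Polynomial.eval_mul, Polynomial.eval_ofNat] at h4
  have h5 : N + 2 ≤ N ^ 2 := by
    rw [sq]
    nlinarith
  have h6 : (N + 2) ^ κ ≤ (N ^ 2) ^ κ := Nat.pow_le_pow_left h5 κ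
  have h7 : (N ^ 2) ^ κ = 2 ^ (2 * κ * (n + 1)) := by
    rw [hN, ← pow_mul, ← pow_mul]
    congr 1
    ring
  rw [← h7]
  exact h2.trans (h3.trans (h4.trans h6))

/-- **`E^NP` in randomized double exponential time.** -/
theorem bptime_fr (hneg : ∀ C, TuringComplete O C → FewRoundsComplete O C) (ε : ℝ) (L : Lang)
    (hε : 0 < ε) (hL : InENP O L) : InBPTIMEdouble O ε L := by
  obtain ⟨r, hr, hrε⟩ := exists_r hε
  have hr0 : (0 : ℝ) < r := by exact_mod_cast (by omega : 0 < r)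
  obtain ⟨W, ℓ, ans, hver, hcut, htot, hans, hansL⟩ := core_nest hL
  obtain ⟨k, hk⟩ := CL_complete hver
  obtain ⟨Q, V, rr, At, k1, hQ, hV, hrr, hQl, hF⟩ := fr_data ((hneg _ (hk r hr)).2 (UK O) UK_inNP)
  obtain ⟨G, hG, hGU⟩ := UK_hard (BJ_inNP hver)
  obtain ⟨k0, hk0⟩ := exists_k0 hver.hl
  obtain ⟨e1, he1⟩ := exists_boundsJ hF hver hG hQ hQl k0
  obtain ⟨b, hb⟩ := hrr (1 / ((e1 + 1 : ℕ) * (2 * r : ℕ) : ℝ)) (by positivity)
  obtain ⟨e2, he2⟩ := he1 (b + 2)
  -- the program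
  have hprog : XT O (fun p : List Bool × List Bool => solJ O W ℓ r k Q V G (2 * r) b e2 ans
      (List.replicate (2 ^ EJ r (2 * r) b e2 (2 ^ (p.1.length + 1))) ())
      (List.replicate (2 ^ (p.1.length + 1)) ()) p.1 p.2)
      (fun p => 2 ^ (p.1.length + 1) + 2 ^ EJ r (2 * r) b e2 (2 ^ (p.1.length + 1))) := by
    have ha1 : PTime O (fun p : List Bool × List Bool => () :: ulen p.1) :=
      PTime.cons (PTime.const ()) (PTime.ulen PTime.id.fst)
    have h1 := XT.exp ha1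
    have ha2 : PTime O (fun q : List Unit × (List Bool × List Bool) =>
        List.replicate (EJ r (2 * r) b e2 q.1.length) ()) :=
      UPoly.comp (g := EJ r (2 * r) b e2) (EJ_upoly r (2 * r) b e2) PTime.id.fst
    have h2 := XT.exp ha2
    have h3 : PTime O (fun q : List Unit × (List Unit × (List Bool × List Bool)) =>
        solJ O W ℓ r k Q V G (2 * r) b e2 ans q.1 q.2.1 q.2.2.1 q.2.2.2) :=
      PTime.solJ hver r k hQ hQl hV hG (2 * r) b e2 hans PTime.id.fst PTime.id.snd.fst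
        PTime.id.snd.snd.fst PTime.id.snd.snd.snd
    have h4 := (XT.of_ptime h3 (fun _ => 0)).comp (h2.comp h1)
    have h5 := h4.mono (g' := fun p : List Bool × List Bool => 2 ^ (p.1.length + 1) +
      2 ^ EJ r (2 * r) b e2 (2 ^ (p.1.length + 1))) (10 * Polynomial.X + 10) (by
        rintro ⟨x, ρ⟩
        simp only [sz_pair, sz_units, List.length_replicate, hlen_aux, Polynomial.eval_add,
          Polynomial.eval_mul, Polynomial.eval_ofNat, Polynomial.eval_X]
        omega)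
    refine (funext fun p => ?_ : (fun p : List Bool × List Bool => solJ O W ℓ r k Q V G (2 * r)
      b e2 ans (List.replicate (2 ^ EJ r (2 * r) b e2 (2 ^ (p.1.length + 1))) ())
      (List.replicate (2 ^ (p.1.length + 1)) ()) p.1 p.2) = _) ▸ h5
    simp only [List.length_replicate]
    rw [hlen_aux]
  obtain ⟨p, κ, hp⟩ := XT.run2_dec (V := fun x ρ => solJ O W ℓ r k Q V G (2 * r) b e2 ans
      (List.replicate (2 ^ EJ r (2 * r) b e2 (2 ^ (x.length + 1))) ())
      (List.replicate (2 ^ (x.length + 1)) ()) x ρ) hprog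
  obtain ⟨C, hC, hEJ⟩ := EJ_real hr b e2
  obtain ⟨a, ha⟩ := growthC κ k0 (C := C) (δ := 1 / (r : ℝ)) (ε := ε) hC (by positivity) hrε
  refine ⟨p, k0, a, fun x => ⟨(x.length + 2 ^ (k0 * (x.length + 1)) + (2 ^ (x.length + 1) +
    2 ^ EJ r (2 * r) b e2 (2 ^ (x.length + 1))) + 2) ^ κ, ha _ _ (hEJ x.length), ?_, ?_⟩⟩
  · intro y hy
    obtain ⟨t, ht, h1, -⟩ := hp x y
    simp only [hy] at ht
    have h2 := run_stable h1 ht
    unfold Halts at h1 ⊢
    rw [h2]
    exact h1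
  · have hacc : ∀ y : List Bool, y.length = 2 ^ (k0 * (x.length + 1)) →
        (Accepts O p x y ((x.length + 2 ^ (k0 * (x.length + 1)) + (2 ^ (x.length + 1) +
          2 ^ EJ r (2 * r) b e2 (2 ^ (x.length + 1))) + 2) ^ κ) ↔
        solJ O W ℓ r k Q V G (2 * r) b e2 ans
          (List.replicate (2 ^ EJ r (2 * r) b e2 (2 ^ (x.length + 1))) ())
          (List.replicate (2 ^ (x.length + 1)) ()) x y = true) := by
      intro y hy
      obtain ⟨t, ht, h1, h2⟩ := hp x y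
      simp only [hy] at ht
      have h3 := run_stable h1 ht
      rw [← h2]
      unfold Accepts
      rw [h3]
    have hm : num x ≤ 2 ^ (x.length + 1) := (num_lt x).le
    refine le_trans (Nat.mul_le_mul_left 3 ?_) (bad_count (m := num x) hver
      (hk0 x.length (num x) hm))
    have := d1_finite' (2 ^ (k0 * (x.length + 1))) fun ρ =>
      ∃ u ∈ visT (gSt W (num x)) (List.replicate (ℓ (num x)) ()),
        (∃ v, W (num x) v = true ∧ v < u) ∧
        ¬ isoW (ℓ (num x)) (eJ (ℓ (num x))) (fun v => W (num x) v = true ∧ v < u) ρ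
    refine Nat.card_le_card_of_injective (fun ρ => ⟨ρ.1, ρ.2.1, ?_⟩) ?_
    · obtain ⟨ρ, hρ, hbad⟩ := ρ
      simp only
      by_contra hgood
      push Not at hgood
      apply hbad
      rw [hacc ρ hρ]
      have hN : ρ.length ≤ (2 ^ (x.length + 1) + 2) ^ k0 := by
        rw [hρ, mul_comm k0, pow_mul]
        exact Nat.pow_le_pow_left (by omega) _
      rw [solJ_eq hver hcut htot hr hF hGU hansL (fun u hu => ?_) hgood]
      have h1 := he2 (2 ^ (x.length + 1)) (List.replicate (num x) ()) u ρ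
        (by rw [List.length_replicate]; exact hm)
        (by rw [List.length_replicate]; exact hu) hN
      simp only [List.length_replicate] at h1
      constructor
      · intro y hy
        have h2 := h1.1 y hy
        have h3 := hb y
        have h4 : ((y.length : ℕ) : ℝ) ^ (1 / ((e1 + 1 : ℕ) * (2 * r : ℕ) : ℝ)) ≤
            ((2 ^ (x.length + 1) + 2 : ℕ) : ℝ) ^ (1 / ((2 * r : ℕ) : ℝ)) := by
          have h5 : ((y.length : ℕ) : ℝ) ≤ ((2 ^ (x.length + 1) + 2 : ℕ) : ℝ) ^ (e1 : ℝ) := by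
            rw [Real.rpow_natCast]
            exact_mod_cast h2
          refine (Real.rpow_le_rpow (by positivity) h5 (by positivity)).trans ?_
          rw [← Real.rpow_mul (by positivity)]
          refine Real.rpow_le_rpow_of_exponent_le ?_ ?_
          · exact_mod_cast (by omega : 1 ≤ 2 ^ (x.length + 1) + 2)
          · push_cast
            rw [mul_one_div, div_le_div_iff₀ (by positivity) (by positivity)]
            nlinarith
        have h6 := rt_ge_real (r := 2 * r) (by omega) (2 ^ (x.length + 1) + 2)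
        have h7 : ((rr y : ℕ) : ℝ) ≤ ((rt (2 * r) (2 ^ (x.length + 1) + 2) + b : ℕ) : ℝ) := by
          push_cast at h3 h4 h6 ⊢
          linarith
        exact_mod_cast h7
      · intro i hi
        have h2 : i ≤ (2 ^ (x.length + 1) + 2) ^ (b + 2) := by
          refine hi.le.trans ?_
          unfold tauJ
          have h3 : rt (2 * r) (2 ^ (x.length + 1) + 2) ≤ 2 ^ (x.length + 1) + 3 := by
            unfold rt
            refine (List.length_filter_le _ _).trans ?_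
            rw [List.length_range]
          generalize 2 ^ (x.length + 1) = N at h3 ⊢
          have h4 : b + 1 ≤ (N + 2) ^ b := by
            calc b + 1 ≤ 2 ^ b := Nat.lt_two_pow_self
              _ ≤ (N + 2) ^ b := Nat.pow_le_pow_left (by omega) b
          have h5 : (N + 2) ^ (b + 2) = (N + 2) ^ b * ((N + 2) * (N + 2)) := by ring
          rw [h5]
          have h6 : (b + 1) * ((N + 2) * (N + 2)) ≤ (N + 2) ^ b * ((N + 2) * (N + 2)) :=
            Nat.mul_le_mul_right _ h4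
          refine le_trans ?_ h6
          nlinarith [Nat.zero_le (b * N), Nat.zero_le (b * (N * N)), Nat.zero_le (N * N)]
        refine lt_of_le_of_lt (h1.2 i h2) ?_
        unfold sJ
        rw [Nat.size_eq_bits_len]
        have h3 : 2 ^ (x.length + 1) + 2 < 2 ^ (2 ^ (x.length + 1) + 2).size :=
          Nat.lt_size_self _
        refine lt_of_le_of_lt (Nat.pow_le_pow_left h3.le e2) ?_
        rw [← pow_mul, mul_comm]
        exact Nat.pow_lt_pow_right (by norm_num) (by omega)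
    · rintro ⟨ρ, hρ⟩ ⟨σ, hσ⟩ h
      simpa using h

end Pool.Agent.CKP
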