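import Pool.Agent.Lib_helper57.YF.I

/-!
# Few rounds of queries: special cases (MP_675993_lc)
-/

set_option autoImplicit false
set_option linter.unusedSectionVars false

namespace Pool.Agent.CKP

open Pool.Agent.CK

variable {O : Lang}

/-- Truth-table reductions have one round. -/
theorem fewRounds_of_tt {A B : Lang} (h : TTReducible O A B) : FewRoundsReducible O A B := by
  obtain ⟨Q, V, hQ, hV, hA⟩ := tt_data h
  obtain ⟨PQ, hPQ⟩ := hQ.size_le
  have hF : PTime O (fun p : List Bool × List Bool =>
      if p.2.isEmpty = true then (Q p.1).flatMap CK.code else []) :=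
    PTime.ite (PTime.isNil PTime.id.snd)
      (PTime.flatMap (f := fun _ w => CK.code w) (hQ.comp PTime.id.fst)
        (PTime.code1 PTime.id.snd)) (PTime.const [])
  obtain ⟨q, kq, hq⟩ := run2_fun (F := fun x a =>
    if a.isEmpty = true then (Q x).flatMap CK.code else []) hF
  obtain ⟨c, kc, hc⟩ := run2_dec (V := V) hV
  obtain ⟨e, he⟩ := exists_pow (PQ.comp (4 * Polynomial.X + 1))
  have hlen : ∀ x : List Bool, (Q x).length ≤ (x.length + 2) ^ e := by
    intro x
    have h1 := he x.length
    rw [Polynomial.eval_comp] at h1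
    simp only [Polynomial.eval_add, Polynomial.eval_mul, Polynomial.eval_ofNat,
      Polynomial.eval_X, Polynomial.eval_one] at h1
    refine (length_le_sz _).trans ((hPQ x).trans (le_trans (poly_mono PQ ?_) h1))
    exact size_bits x
  have htime : ∀ (x a : List Bool) (κ : ℕ), κ ≤ kq + kc → a.length ≤ (x.length + 2) ^ e →
      (x.length + a.length + 2) ^ κ ≤ (x.length + 2) ^ ((e + 2) * (kq + kc)) := by
    intro x a κ hκ ha
    have h1 : x.length + a.length + 2 ≤ (x.length + 2) ^ (e + 2) := by
      have h2 : (x.length + 2) ^ (e + 2) = (x.length + 2) ^ e * ((x.length + 2) * (x.length + 2)) := by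
        ring
      have h3 : 1 ≤ (x.length + 2) ^ e := Nat.one_le_pow _ _ (by omega)
      rw [h2]
      generalize (x.length + 2) ^ e = P at h3 ha ⊢
      have h4 : x.length + 2 ≤ P * (x.length + 2) := Nat.le_mul_of_pos_left _ h3
      have h5 : P ≤ P * (x.length + 2) := Nat.le_mul_of_pos_right _ (by omega)
      have h6 : P * ((x.length + 2) * (x.length + 2)) =
          (P * (x.length + 2)) * (x.length + 2) := by ring
      have h7 : (P * (x.length + 2)) * 2 ≤ (P * (x.length + 2)) * (x.length + 2) :=
        Nat.mul_le_mul_left _ (by omega)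
      omega
    calc (x.length + a.length + 2) ^ κ ≤ ((x.length + 2) ^ (e + 2)) ^ κ :=
          Nat.pow_le_pow_left h1 κ
      _ ≤ ((x.length + 2) ^ (e + 2)) ^ (kq + kc) :=
          Nat.pow_le_pow_right (Nat.one_le_pow _ _ (by omega)) hκ
      _ = _ := by rw [← pow_mul]
  have hrq : ∀ (x a : List Bool), a.length ≤ (x.length + 2) ^ e →
      Halts O q x a ((x.length + 2) ^ ((e + 2) * (kq + kc))) ∧
      (run O q x a ((x.length + 2) ^ ((e + 2) * (kq + kc)))).2 0 =
        if a.isEmpty = true then (Q x).flatMap CK.code else [] := by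
    intro x a ha
    obtain ⟨h1, h2⟩ := hq x a
    have h3 := run_stable h1 (htime x a kq (by omega) ha)
    refine ⟨?_, by rw [h3]; exact h2⟩
    unfold Halts at h1 ⊢
    rw [h3]
    exact h1
  have hrc : ∀ (x a : List Bool), a.length ≤ (x.length + 2) ^ e →
      Halts O c x a ((x.length + 2) ^ ((e + 2) * (kq + kc))) ∧
      (Accepts O c x a ((x.length + 2) ^ ((e + 2) * (kq + kc))) ↔ V x a = true) := by
    intro x a ha
    obtain ⟨h1, h2⟩ := hc x a
    have h3 := run_stable h1 (htime x a kc (by omega) ha)
    refine ⟨?_, ?_⟩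
    · unfold Halts at h1 ⊢
      rw [h3]
      exact h1
    · rw [← h2]
      unfold Accepts
      rw [h3]
  refine ⟨q, c, (e + 2) * (kq + kc), fun x => if (Q x).isEmpty = true then 0 else 1,
    fun δ _ => ⟨1, fun x => ?_⟩, fun x => ?_⟩
  · have h1 : (0 : ℝ) ≤ (x.length : ℝ) ^ δ := by positivity
    simp only
    split_ifs
    · push_cast
      linarith
    · push_cast
      linarith
  · by_cases hx : (Q x).isEmpty = true
    · have hx' : Q x = [] := List.isEmpty_iff.mp hx
      refine ⟨fun _ => [], rfl, ?_, ?_⟩
      · intro i hi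
        simp only [if_pos hx] at hi
        exact absurd hi (Nat.not_lt_zero _)
      · obtain ⟨h1, h2⟩ := hrq x [] (by simp)
        obtain ⟨h3, h4⟩ := hrc x [] (by simp)
        refine ⟨h1, ?_, h3, ?_⟩
        · rw [h2, hx']
          rfl
        · rw [h4, hA x, hx']
          rfl
    · have hne : ((Q x).map B).isEmpty = false := by
        rw [Bool.not_eq_true] at hx
        cases hq' : Q x with
        | nil => rw [hq'] at hx; simp at hx
        | cons a t => rfl
      refine ⟨fun i => if i = 0 then [] else (Q x).map B, by simp, ?_, ?_⟩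
      · intro i hi
        simp only [if_neg hx] at hi
        have hi0 : i = 0 := by omega
        subst hi0
        obtain ⟨h1, h2⟩ := hrq x [] (by simp)
        refine ⟨Q x, by simpa using h1, by simpa using h2, by simp⟩
      · simp only [if_neg hx]
        have hl : ((Q x).map B).length ≤ (x.length + 2) ^ e := by
          rw [List.length_map]
          exact hlen x
        obtain ⟨h1, h2⟩ := hrq x _ hl
        obtain ⟨h3, h4⟩ := hrc x _ hl
        rw [if_neg (by rw [hne]; simp)] at h2
        refine ⟨by simpa using h1, by simpa using h2, by simpa using h3, ?_⟩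
        simp only [one_ne_zero, if_false]
        rw [h4, hA x]

theorem fewRoundsComplete_of_tt {C : Lang} (h : TTComplete O C) : FewRoundsComplete O C :=
  ⟨h.1, fun A hA => fewRounds_of_tt (h.2 A hA)⟩

theorem fewRoundsComplete_of_m {C : Lang} (h : ManyOneComplete O C) : FewRoundsComplete O C :=
  ⟨h.1, fun A hA => fewRounds_of_tt (tt_of_m (h.2 A hA))⟩

end Pool.Agent.CKP
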