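import Pool.Agent.Lib_helper57.YF.Classes
import Pool.Agent.Lib_helper57.YT.J

/-!
# Few rounds of queries: folding with a cap, typed reductions (MP_675993_lc)
-/

set_option autoImplicit false
set_option linter.unusedSectionVars false

namespace Pool.Agent.CKP

open Pool.Agent.CK

variable {O : Lang}
variable {α β γ δ : Type} [ToD α] [ToD β] [ToD γ] [ToD δ]

/-! ### folding with a cap for the size of the states -/

/-- a step is made only if the new state is small -/
def capS (B : List Unit) (s : β → α → β) (b : β) (a : α) : β :=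
  if decide ((toD (s b a)).enc.length ≤ B.length) = true then s b a else b

theorem capS_sz (B : List Unit) (s : β → α → β) : ∀ (l : List α) (b : β),
    sz (l.foldl (capS B s) b) ≤ max (sz b) B.length := by
  intro l
  induction l with
  | nil => intro b; exact le_max_left _ _
  | cons a t ih =>
    intro b
    rw [List.foldl_cons]
    refine (ih _).trans (max_le ?_ (le_max_right _ _))
    unfold capS
    split_ifs with h
    · rw [decide_eq_true_eq, D.enc_length] at h
      exact h.trans (le_max_right _ _)
    · exact le_max_left _ _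

theorem PTime.foldl_cap {l : γ → List α} {i : γ → β} {s : γ → β → α → β} {B : γ → List Unit}
    (hl : PTime O l) (hi : PTime O i) (hs : PTime O (fun p : γ × β × α => s p.1 p.2.1 p.2.2))
    (hB : PTime O B) : PTime O (fun x => (l x).foldl (capS (B x) (s x)) (i x)) := by
  obtain ⟨Pi, hPi⟩ := hi.size_le
  obtain ⟨PB, hPB⟩ := hB.size_le
  refine PTime.foldl (s := fun x b a => capS (B x) (s x) b a) hl hi ?_ (Pi + PB) ?_
  · unfold capS
    refine PTime.ite ?_ hs PTime.id.snd.fst
    exact PTime.nat_le (PTime.length (PTime.enc hs.code)) (PTime.length (hB.comp PTime.id.fst))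
  · intro x l' _
    refine (capS_sz (B x) (s x) l' (i x)).trans ?_
    rw [Polynomial.eval_add]
    have h1 := hPi x
    have h2 := hPB x
    have h3 := length_le_sz (B x)
    exact max_le (by omega) (by omega)

theorem capS_eq {B : List Unit} {s : β → α → β} : ∀ (l : List α) (b : β),
    (∀ l', l' <+: l → sz (l'.foldl s b) ≤ B.length) → l.foldl (capS B s) b = l.foldl s b := by
  intro l
  induction l with
  | nil => intro b _; rfl
  | cons a t ih =>
    intro b h
    rw [List.foldl_cons, List.foldl_cons]
    have h1 : capS B s b a = s b a := by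
      unfold capS
      rw [if_pos]
      rw [decide_eq_true_eq, D.enc_length]
      exact h [a] ⟨t, rfl⟩
    rw [h1]
    refine ih _ fun l' hl' => ?_
    obtain ⟨u, rfl⟩ := hl'
    exact h (a :: l') ⟨u, rfl⟩

/-! ### reductions with rounds of queries -/

/-- a reduction of `A` to `C` with rounds of queries: the queries `Q y a` and the value `V y a`
after the answers `a`; `At y i` are the answers of the first `i` rounds -/
structure FRD (A C : Lang) (Q : List Bool → List Bool → List (List Bool))
    (V : List Bool → List Bool → Bool) (rr : List Bool → ℕ) (At : List Bool → ℕ → List Bool) :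
    Prop where
  h0 : ∀ y, At y 0 = []
  hs : ∀ y i, At y (i + 1) = At y i ++ (Q y (At y i)).map C
  hr : ∀ y i, rr y ≤ i → Q y (At y i) = []
  hv : ∀ y i, rr y ≤ i → V y (At y i) = A y

/-- a unary number -/
def nbF (k : ℕ) (y : List Bool) : List Unit := List.replicate (y.length + (y.length + 2) ^ k) ()

theorem nbF_ptime (k : ℕ) {y : γ → List Bool} (hy : PTime O y) :
    PTime O (fun a => nbF k (y a)) :=
  UPoly.comp (g := fun n => n + (n + 2) ^ k) (UPoly.id.add (UPoly.tb k)) hy

theorem fr_data {A C : Lang} (h : FewRoundsReducible O A C) :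
    ∃ (Q : List Bool → List Bool → List (List Bool)) (V : List Bool → List Bool → Bool)
      (rr : List Bool → ℕ) (At : List Bool → ℕ → List Bool) (k : ℕ),
      PTime O (fun p : List Bool × List Bool => Q p.1 p.2) ∧
      PTime O (fun p : List Bool × List Bool => V p.1 p.2) ∧
      (∀ δ : ℝ, 0 < δ → ∃ b : ℕ, ∀ x, (rr x : ℝ) ≤ (x.length : ℝ) ^ δ + b) ∧
      (∀ y a, (Q y a).length ≤ y.length + (y.length + 2) ^ k) ∧
      FRD A C Q V rr At := by
  obtain ⟨q, c, k, r, hr, h1⟩ := h
  choose a h0 hq hr1 hr2 hc hv using h1
  have hR : ∀ x, Rnd O C q c ((x.length + 2) ^ k) x (A x) (r x) (a x) := fun x =>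
    ⟨h0 x, hq x, hr1 x, hr2 x, hc x, hv x⟩
  refine ⟨fun y a => qrF O q (fun w => w) (nbF k y) y a, fun y a => accU O (cmdD c) y a (nbF k y),
    r, fun y i => a y (min i (r y)), k, ?_, ?_, hr, fun y a => ?_, ?_⟩
  · exact PTime.qrF q PTime.id (nbF_ptime k PTime.id.fst) PTime.id.fst PTime.id.snd
  · exact PTime.accU (PTime.const (cmdD c)) PTime.id.fst PTime.id.snd (nbF_ptime k PTime.id.fst)
  · refine (qrF_length _ _ _ _ _ _).trans ?_
    unfold nbF
    rw [List.length_replicate]
  · have hN : ∀ y : List Bool, y.length + (y.length + 2) ^ k ≤ (nbF k y).length := by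
      intro y
      unfold nbF
      rw [List.length_replicate]
    refine ⟨fun y => ?_, fun y i => ?_, fun y i hi => ?_, fun y i hi => ?_⟩
    · simp [h0 y]
    · exact ((hR y).step (g := fun w => w) (φ := C) (hN y) i fun _ _ => rfl).symm
    · rw [min_eq_right hi, qrF_eq (l := []) (hr1 y) (by rw [hr2 y]; rfl) (hN y)]
      rfl
    · rw [min_eq_right hi]
      exact accU_big (hc y) (hv y) (by have := hN y; omega)

end Pool.Agent.CKP
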