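import Pool.Agent.Lib_helper57.YF.A

/-!
# Few rounds of queries: the rounds of a family of instances, from the numbers of the true
comparisons (MP_675993_lc)

`stpA` makes one round for all instances of a family; the number `j` of the true comparisons among
all comparisons of this round is given.
-/

set_option autoImplicit false
set_option linter.unusedSectionVars false

namespace Pool.Agent.CKP

open Pool.Agent.CK

variable {O : Lang}
variable {α β γ δ : Type} [ToD α] [ToD β] [ToD γ] [ToD δ]

/-- a state: instances and the answers of the rounds made -/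
abbrev StA := List (List Bool × List Bool)

/-- the queries of the present round -/
def curA (Q : List Bool → List Bool → List (List Bool)) (σ : StA) : List (List Bool) :=
  σ.flatMap fun p => Q p.1 p.2

/-- the comparisons of the present round -/
def thsA (Q : List Bool → List Bool → List (List Bool)) (σ : StA) : List (List Unit × ℕ) :=
  (curA Q σ).flatMap thsQ

/-- a table from the number of the true comparisons -/
def tbA (ℓ : ℕ → ℕ) (Q : List Bool → List Bool → List (List Bool)) (σ : StA) (j : ℕ) :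
    List (Bool × ℕ) := tabT ℓ (thsA Q σ) j (nT (thsA Q σ))

/-- one round -/
def stpA (O : Lang) (W : ℕ → ℕ → Bool) (ℓ : ℕ → ℕ) (r k : ℕ)
    (Q : List Bool → List Bool → List (List Bool)) (U : List Unit) (σ : StA) (j : ℕ) : StA :=
  σ.map fun p => (p.1, p.2 ++ (Q p.1 p.2).map fun q => valK O W r k U (tbA ℓ Q σ j) q)

theorem PTime.curA {Q : List Bool → List Bool → List (List Bool)}
    (hQ : PTime O (fun p : List Bool × List Bool => Q p.1 p.2)) {σ : γ → StA} (hσ : PTime O σ) :
    PTime O (fun a => CKP.curA Q (σ a)) := by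
  unfold CKP.curA
  exact PTime.flatMap (f := fun _ (p : List Bool × List Bool) => Q p.1 p.2) hσ
    (hQ.comp PTime.id.snd)

theorem PTime.thsA {Q : List Bool → List Bool → List (List Bool)}
    (hQ : PTime O (fun p : List Bool × List Bool => Q p.1 p.2)) {σ : γ → StA} (hσ : PTime O σ) :
    PTime O (fun a => CKP.thsA Q (σ a)) := by
  unfold CKP.thsA
  exact PTime.flatMap (f := fun _ q => CKP.thsQ q) (PTime.curA hQ hσ) (PTime.thsQ PTime.id.snd)

theorem PTime.tbA {W : ℕ → ℕ → Bool} {ℓ : ℕ → ℕ} (hver : Ver O W ℓ)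
    {Q : List Bool → List Bool → List (List Bool)}
    (hQ : PTime O (fun p : List Bool × List Bool => Q p.1 p.2)) {σ : γ → StA} (hσ : PTime O σ)
    {j : γ → ℕ} (hj : PTime O j) : PTime O (fun a => CKP.tbA ℓ Q (σ a) (j a)) := by
  unfold CKP.tbA
  exact PTime.tabT hver.hl (PTime.thsA hQ hσ) hj (PTime.nT (PTime.thsA hQ hσ))

theorem PTime.stpA {W : ℕ → ℕ → Bool} {ℓ : ℕ → ℕ} (hver : Ver O W ℓ) (r k : ℕ)
    {Q : List Bool → List Bool → List (List Bool)}
    (hQ : PTime O (fun p : List Bool × List Bool => Q p.1 p.2)) {U : γ → List Unit} {σ : γ → StA}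
    (hU : PTime O U) (hσ : PTime O σ) {j : γ → ℕ} (hj : PTime O j) :
    PTime O (fun a => CKP.stpA O W ℓ r k Q (U a) (σ a) (j a)) := by
  unfold CKP.stpA
  refine PTime.map (f := fun a (p : List Bool × List Bool) => (p.1, p.2 ++ (Q p.1 p.2).map fun q =>
    CKP.valK O W r k (U a) (CKP.tbA ℓ Q (σ a) (j a)) q)) hσ ?_
  refine PTime.id.snd.fst.pair (PTime.append PTime.id.snd.snd ?_)
  refine PTime.map (f := fun (a : γ × (List Bool × List Bool)) q =>
    CKP.valK O W r k (U a.1) (CKP.tbA ℓ Q (σ a.1) (j a.1)) q) (hQ.comp PTime.id.snd) ?_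
  exact PTime.valK hver r k (hU.comp PTime.id.fst.fst)
    (PTime.tbA hver hQ (hσ.comp PTime.id.fst.fst) (hj.comp PTime.id.fst.fst)) PTime.id.snd

/-- the table of the least witnesses of length `n` -/
noncomputable def trueT (W : ℕ → ℕ → Bool) (n : ℕ) : List (Bool × ℕ) := (List.range n).map (t1_e W)

theorem trueT_spec (W : ℕ → ℕ → Bool) (n : ℕ) : ∀ i < n, LeastSpec W i (ent (trueT W n) i) := by
  intro i hi
  unfold trueT
  rw [ent_map_range _ _ _ hi]
  exact t1_spec W i

section

variable {W : ℕ → ℕ → Bool} {ℓ : ℕ → ℕ} {r k : ℕ} {Q : List Bool → List Bool → List (List Bool)}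

/-- the number of the true comparisons of the present round -/
noncomputable def jA (W : ℕ → ℕ → Bool) (Q : List Bool → List Bool → List (List Bool)) (σ : StA) :
    ℕ := cntT W (thsA Q σ)

/-- the table agrees with the table of the least witnesses -/
theorem tbA_agr (hcut : Cut W ℓ) (htot : ∀ m, ∃ v, W m v = true) (σ : StA) (n : ℕ) :
    AgrT (tbA ℓ Q σ (jA W Q σ)) (trueT W (n + (nT (thsA Q σ)).length)) (thsA Q σ) :=
  tabT_agr hcut htot (fun _ hp => lt_nT hp) fun i hi => trueT_spec W _ i (by omega)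

theorem agr_query {T T' : List (Bool × ℕ)} {σ : StA} (h : AgrT T T' (thsA Q σ)) {q : List Bool}
    (hq : q ∈ curA Q σ) : AgrT T T' (thsQ q) := fun p hp =>
  h p (List.mem_flatMap.mpr ⟨q, hq, hp⟩)

/-- the answer to one query -/
theorem valK_true (hcut : Cut W ℓ) (htot : ∀ m, ∃ v, W m v = true) (hr : 1 ≤ r) {σ : StA}
    {U : List Unit} {M : ℕ} (hU : 2 ^ rt r M ≤ U.length) {q : List Bool} (hq : q ∈ curA Q σ)
    (hsh : typ q = true → valid W r k q = true →
      (∀ i < (wss q).length, LeastSpec W i (ent (wss q) i)) → (wss q).length ≤ M) :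
    valK O W r k U (tbA ℓ Q σ (jA W Q σ)) q = CL O W r k q := by
  have hagr := tbA_agr (ℓ := ℓ) hcut htot σ (Q := Q) (3 * q.length + 2)
  rw [valK_congr (agr_query hagr hq)]
  have hT : ∀ i ≤ 3 * q.length + 1, LeastSpec W i
      (ent (trueT W (3 * q.length + 2 + (nT (thsA Q σ)).length)) i) := fun i hi =>
    trueT_spec W _ i (by omega)
  refine valK_eq_of hT fun ht hv hb => brute_eq ?_
  have h1 := hsh ht hv fun i hi => leastSpec_of_noguard hv (noguard_of_not_bad hT hb) hi
  refine le_trans (Nat.pow_le_pow_right (by norm_num) (rt_ge hr ?_)) hU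
  unfold valid at hv
  rw [Bool.and_eq_true, Bool.and_eq_true, decide_eq_true_eq] at hv
  exact hv.1.1.trans h1

/-- a query with a long correct list -/
def jack (W : ℕ → ℕ → Bool) (r k M : ℕ) (q : List Bool) : Prop :=
  typ q = true ∧ valid W r k q = true ∧ (∀ i < (wss q).length, LeastSpec W i (ent (wss q) i)) ∧
    M < (wss q).length

/-- one round with the true number -/
theorem stpA_eq (hcut : Cut W ℓ) (htot : ∀ m, ∃ v, W m v = true) (hr : 1 ≤ r) {A : Lang}
    {V : List Bool → List Bool → Bool} {rr : List Bool → ℕ} {At : List Bool → ℕ → List Bool}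
    (hF : FRD A (CL O W r k) Q V rr At) {U : List Unit} {M : ℕ} (hU : 2 ^ rt r M ≤ U.length)
    {Z : List (List Bool)} {i : ℕ}
    (hno : ∀ q ∈ curA Q (Z.map fun y => (y, At y i)), ¬ jack W r k M q) :
    stpA O W ℓ r k Q U (Z.map fun y => (y, At y i)) (jA W Q (Z.map fun y => (y, At y i))) =
      Z.map fun y => (y, At y (i + 1)) := by
  unfold stpA
  rw [List.map_map]
  refine List.map_congr_left fun y hy => ?_
  simp only [Function.comp_apply]
  rw [hF.hs y i]
  congr 2
  refine List.map_congr_left fun q hq => ?_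
  have hq' : q ∈ curA Q (Z.map fun y => (y, At y i)) :=
    List.mem_flatMap.mpr ⟨(y, At y i), List.mem_map.mpr ⟨y, hy, rfl⟩, hq⟩
  refine valK_true hcut htot hr hU hq' fun h1 h2 h3 => ?_
  by_contra h4
  exact hno q hq' ⟨h1, h2, h3, not_le.mp h4⟩

end

end Pool.Agent.CKP
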