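import Pool.Agent.Lib_helper57.YF.B

/-!
# Few rounds of queries: the simulation with guessed numbers (MP_675993_lc)
-/

set_option autoImplicit false
set_option linter.unusedSectionVars false

namespace Pool.Agent.CKP

open Pool.Agent.CK

variable {O : Lang}
variable {α β γ δ : Type} [ToD α] [ToD β] [ToD γ] [ToD δ]

/-- the rounds of a family of instances, with the numbers `js` -/
def simA (O : Lang) (W : ℕ → ℕ → Bool) (ℓ : ℕ → ℕ) (r k : ℕ)
    (Q : List Bool → List Bool → List (List Bool)) (U : List Unit) (Z : List (List Bool))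
    (js : List ℕ) : StA :=
  js.foldl (stpA O W ℓ r k Q U) (Z.map fun y => (y, []))

theorem le_of_mem_list {Z : List (List Bool)} {y : List Bool} (h : y ∈ Z) : y.length ≤ sz Z :=
  (length_le_sz y).trans (sz_le_of_mem h)

section

variable {W : ℕ → ℕ → Bool} {ℓ : ℕ → ℕ} {r k k1 : ℕ} {Q : List Bool → List Bool → List (List Bool)}

theorem simA_state (hQl : ∀ y a, (Q y a).length ≤ y.length + (y.length + 2) ^ k1)
    (U : List Unit) (Z : List (List Bool)) {b : ℕ}
    (hb : ∀ y ∈ Z, y.length + (y.length + 2) ^ k1 ≤ b) (js : List ℕ) :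
    (simA O W ℓ r k Q U Z js).map Prod.fst = Z ∧
      ∀ p ∈ simA O W ℓ r k Q U Z js, p.2.length ≤ js.length * b := by
  unfold simA
  induction js using List.reverseRecOn with
  | nil =>
    refine ⟨?_, fun p hp => ?_⟩
    · rw [List.foldl_nil, List.map_map]
      exact List.map_id _
    · rw [List.foldl_nil] at hp
      obtain ⟨x, -, rfl⟩ := List.mem_map.mp hp
      simp
  | append_singleton l j ih =>
    rw [List.foldl_append, List.foldl_cons, List.foldl_nil]
    unfold stpA
    refine ⟨?_, fun p hp => ?_⟩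
    · rw [List.map_map]
      exact ih.1
    · obtain ⟨p', hp', rfl⟩ := List.mem_map.mp hp
      simp only
      rw [List.length_append, List.length_map, List.length_append, List.length_singleton]
      have h1 := ih.2 p' hp'
      have h2 : p'.1 ∈ Z := by
        have : p'.1 ∈ List.map Prod.fst (List.foldl (stpA O W ℓ r k Q U)
            (List.map (fun y => (y, [])) Z) l) := List.mem_map.mpr ⟨p', hp', rfl⟩
        rwa [ih.1] at this
      have h3 := (hQl p'.1 p'.2).trans (hb p'.1 h2)
      have h4 : (l.length + 1) * b = l.length * b + b := by ring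
      omega

theorem simA_sz (hQl : ∀ y a, (Q y a).length ≤ y.length + (y.length + 2) ^ k1)
    (U : List Unit) (Z : List (List Bool)) (js : List ℕ) :
    sz (simA O W ℓ r k Q U Z js) ≤
      sz Z + sz Z * (4 * (js.length * (sz Z + (sz Z + 2) ^ k1)) + 2) := by
  obtain ⟨h1, h2⟩ := simA_state (O := O) (W := W) (ℓ := ℓ) (r := r) (k := k) hQl U Z
    (b := sz Z + (sz Z + 2) ^ k1) (fun y hy => by
      have h3 := le_of_mem_list hy
      have h4 : (y.length + 2) ^ k1 ≤ (sz Z + 2) ^ k1 := Nat.pow_le_pow_left (by omega) _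
      omega) js
  have h3 := sz_state _ _ h2
  rw [h1] at h3
  have h4 : (simA O W ℓ r k Q U Z js).length ≤ sz Z := by
    have h5 : (simA O W ℓ r k Q U Z js).length = Z.length := by
      rw [← h1, List.length_map]
      simp [h1]
    rw [h5]
    exact length_le_sz Z
  exact h3.trans (Nat.add_le_add_left (Nat.mul_le_mul_right _ h4) _)

theorem PTime.simA (hver : Ver O W ℓ) (r k : ℕ)
    (hQ : PTime O (fun p : List Bool × List Bool => Q p.1 p.2))
    (hQl : ∀ y a, (Q y a).length ≤ y.length + (y.length + 2) ^ k1) {U : γ → List Unit}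
    {Z : γ → List (List Bool)} {js : γ → List ℕ} (hU : PTime O U) (hZ : PTime O Z)
    (hjs : PTime O js) :
    PTime O (fun a => CKP.simA O W ℓ r k Q (U a) (Z a) (js a)) := by
  obtain ⟨PZ, hPZ⟩ := hZ.size_le
  obtain ⟨Pj, hPj⟩ := hjs.size_le
  have hstep : PTime O (fun p : γ × StA × ℕ =>
      CKP.stpA O W ℓ r k Q (U p.1) p.2.1 p.2.2) :=
    PTime.stpA hver r k hQ (hU.comp PTime.id.fst) PTime.id.snd.fst PTime.id.snd.snd
  unfold CKP.simA
  refine PTime.foldl (l := js) (i := fun a => (Z a).map fun x => (x, []))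
    (s := fun a => CKP.stpA O W ℓ r k Q (U a)) hjs
    (PTime.map (f := fun _ (x : List Bool) => (x, ([] : List Bool))) hZ
      (PTime.id.snd.pair (PTime.const []))) hstep
    (PZ + PZ * (4 * (Pj * (PZ + (PZ + 2) ^ k1)) + 2)) ?_
  intro a l' hl'
  have h1 := simA_sz (O := O) (W := W) (ℓ := ℓ) (r := r) (k := k) hQl (U a) (Z a) l'
  unfold CKP.simA at h1
  refine h1.trans ?_
  have h2 : l'.length ≤ Pj.eval (sz a) := (hl'.length_le.trans (length_le_sz _)).trans (hPj a)
  have h3 := hPZ a
  simp only [Polynomial.eval_add, Polynomial.eval_mul, Polynomial.eval_ofNat,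
    Polynomial.eval_pow]
  refine Nat.add_le_add h3 (Nat.mul_le_mul h3 (Nat.add_le_add_right (Nat.mul_le_mul_left _
    (Nat.mul_le_mul h2 (Nat.add_le_add h3 (Nat.pow_le_pow_left (by omega) _)))) _))

/-- the simulation with the true numbers, before a long correct list is found -/
theorem simA_true (hcut : Cut W ℓ) (htot : ∀ m, ∃ v, W m v = true) (hr : 1 ≤ r) {A : Lang}
    {V : List Bool → List Bool → Bool} {rr : List Bool → ℕ} {At : List Bool → ℕ → List Bool}
    (hF : FRD A (CL O W r k) Q V rr At) {U : List Unit} {M : ℕ} (hU : 2 ^ rt r M ≤ U.length)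
    {Z : List (List Bool)} (n : ℕ)
    (hno : ∀ i < n, ∀ q ∈ curA Q (Z.map fun y => (y, At y i)), ¬ jack W r k M q) :
    simA O W ℓ r k Q U Z ((List.range n).map fun i => jA W Q (Z.map fun y => (y, At y i))) =
      Z.map fun y => (y, At y n) := by
  induction n with
  | zero =>
    unfold simA
    rw [List.range_zero, List.map_nil, List.foldl_nil]
    exact List.map_congr_left fun y _ => by rw [hF.h0]
  | succ n ih =>
    have h1 := ih fun i hi => hno i (by omega)
    unfold simA at h1 ⊢
    rw [List.range_succ, List.map_append, List.foldl_append, h1]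
    exact stpA_eq hcut htot hr hF hU (hno n (by omega))

end

/-! ### the numbers -/

/-- numbers from a guess -/
def jsU (t s : List Unit) (v : ℕ) : List ℕ :=
  (rangeU t).map fun u => v / 2 ^ (umul u s).length % 2 ^ s.length

theorem PTime.jsU {t s : γ → List Unit} {v : γ → ℕ} (ht : PTime O t) (hs : PTime O s)
    (hv : PTime O v) : PTime O (fun a => CKP.jsU (t a) (s a) (v a)) := by
  unfold CKP.jsU
  refine PTime.map (f := fun a u => v a / 2 ^ (CKP.umul u (s a)).length % 2 ^ (s a).length)
    (PTime.rangeU ht) ?_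
  exact PTime.modp (hs.comp PTime.id.fst) (PTime.divp (PTime.umul PTime.id.snd
    (hs.comp PTime.id.fst)) (hv.comp PTime.id.fst))

theorem exists_code (s : ℕ) : ∀ (n : ℕ) (j : ℕ → ℕ), (∀ i < n, j i < 2 ^ s) →
    ∃ v < 2 ^ (n * s), ∀ i < n, v / 2 ^ (i * s) % 2 ^ s = j i := by
  intro n
  induction n with
  | zero => intro j _; exact ⟨0, by simp, fun i hi => absurd hi (Nat.not_lt_zero _)⟩
  | succ n ih =>
    intro j hj
    obtain ⟨v, hv, h⟩ := ih (fun i => j (i + 1)) fun i hi => hj (i + 1) (by omega)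
    refine ⟨v * 2 ^ s + j 0, ?_, fun i hi => ?_⟩
    · have h1 : (v + 1) * 2 ^ s ≤ 2 ^ (n * s) * 2 ^ s := Nat.mul_le_mul_right _ hv
      have h2 : 2 ^ ((n + 1) * s) = 2 ^ (n * s) * 2 ^ s := by rw [← pow_add]; congr 1; ring
      have h3 : (v + 1) * 2 ^ s = v * 2 ^ s + 2 ^ s := by ring
      have h4 := hj 0 (by omega)
      omega
    · cases i with
      | zero =>
        rw [Nat.zero_mul, pow_zero, Nat.div_one, Nat.mul_add_mod', Nat.mod_eq_of_lt
          (hj 0 (by omega))]
      | succ i =>
        have h1 : 2 ^ ((i + 1) * s) = 2 ^ s * 2 ^ (i * s) := by rw [← pow_add]; congr 1; ring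
        have h2 : (v * 2 ^ s + j 0) / 2 ^ s = v := by
          rw [mul_comm, Nat.mul_add_div (Nat.two_pow_pos _), Nat.div_eq_of_lt (hj 0 (by omega))]
          omega
        rw [h1, ← Nat.div_div_eq_div_mul, h2]
        exact h i (by omega)

theorem jsU_eq {s n : ℕ} {v : ℕ} {j : ℕ → ℕ} (h : ∀ i < n, v / 2 ^ (i * s) % 2 ^ s = j i) :
    jsU (List.replicate n ()) (List.replicate s ()) v = (List.range n).map j := by
  unfold jsU
  rw [rangeU_replicate, List.map_map]
  refine List.map_congr_left fun i hi => ?_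
  simp only [Function.comp_apply]
  rw [umul_replicate, List.length_replicate, List.length_replicate]
  exact h i (List.mem_range.mp hi)

end Pool.Agent.CKP
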