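import Pool.Agent.Lib_helper57.YT.ClassesR

/-!
# Reductions with few rounds of queries, and randomized double exponential time, for the machine
model of `CKF.Defs`
-/

set_option autoImplicit false

namespace Pool.Agent.CK

/-- `A` reduces to `B`, relative to `O`, by a polynomial time Turing reduction with
`r ≤ |x| ^ (o(1))` rounds of nonadaptive queries.  In each round the program `q` writes down a list
`l` of queries in time `(|x| + 2) ^ k`, from `x` and the answers `a i` of `B` in the rounds before
(on stack `1`); `q` has access to `O`, not to `B`.  It writes the empty list after the last round,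
and then the program `c` decides `A x` in this time from `x` and all answers. -/
def FewRoundsReducible (O A B : Lang) : Prop :=
  ∃ (q c : Cmd) (k : ℕ) (r : List Bool → ℕ),
    (∀ δ : ℝ, 0 < δ → ∃ b : ℕ, ∀ x, (r x : ℝ) ≤ (x.length : ℝ) ^ δ + b) ∧
    ∀ x : List Bool, ∃ a : ℕ → List Bool, a 0 = [] ∧
      (∀ i < r x, ∃ l : List (List Bool),
        Halts O q x (a i) ((x.length + 2) ^ k) ∧
        (run O q x (a i) ((x.length + 2) ^ k)).2 0 = l.flatMap code ∧
        a (i + 1) = a i ++ l.map B) ∧
      Halts O q x (a (r x)) ((x.length + 2) ^ k) ∧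
      (run O q x (a (r x)) ((x.length + 2) ^ k)).2 0 = [] ∧
      Halts O c x (a (r x)) ((x.length + 2) ^ k) ∧
      (Accepts O c x (a (r x)) ((x.length + 2) ^ k) ↔ A x = true)

/-- `C` is in `NP` and all languages in `NP` reduce to it by reductions with few rounds of queries,
relative to `O`. -/
def FewRoundsComplete (O C : Lang) : Prop := InNP O C ∧ ∀ A, InNP O A → FewRoundsReducible O A C

/-- `L` is decided with oracle `O` by a randomized program with `2 ^ (k (|x| + 1))` random bits `y`
(on stack `1`) in time `O(2 ^ (2 ^ (ε |x|)))`, with error probability at most `1 / 3`. -/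
def InBPTIMEdouble (O : Lang) (ε : ℝ) (L : Lang) : Prop :=
  ∃ (c : Cmd) (k a : ℕ), ∀ x : List Bool, ∃ t : ℕ,
    (t : ℝ) ≤ a * (2 : ℝ) ^ ((2 : ℝ) ^ (ε * x.length)) ∧
    (∀ y : List Bool, y.length = 2 ^ (k * (x.length + 1)) → Halts O c x y t) ∧
    3 * Nat.card {y : List Bool // y.length = 2 ^ (k * (x.length + 1)) ∧
      ¬ (Accepts O c x y t ↔ L x = true)} ≤ 2 ^ 2 ^ (k * (x.length + 1))

end Pool.Agent.CK
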