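import Pool.Agent.Lib_helper57.YF.C
import Pool.Agent.Lib_helper57.YR.E

/-!
# Few rounds of queries: search for a small witness with random bits (MP_675993_lc)

`srch` decides with random bits `ρ` whether the number `|M|` has a witness less than `u`: the
instances ask for the bits of the witness of least weight, all numbers of true comparisons are tried
for all rounds, and the least witness is also looked for in the queries.
-/

set_option autoImplicit false
set_option linter.unusedSectionVars false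

namespace Pool.Agent.CKP

open Pool.Agent.CK

variable {O : Lang}
variable {α β γ δ : Type} [ToD α] [ToD β] [ToD γ] [ToD δ]

/-! ### the questions -/

/-- number of bits of the weights: `8 n ^ 2 < 2 ^ eJ n ≤ 16 n ^ 2` -/
def eJ (n : ℕ) : ℕ := (8 * (n * n)).bits.length

theorem eJ_lo (n : ℕ) : 8 * (n * n) < 2 ^ eJ n := by
  unfold eJ
  rw [Nat.size_eq_bits_len]
  exact Nat.lt_size_self _

theorem eJ_hi {n : ℕ} (hn : 1 ≤ n) : 2 ^ eJ n ≤ 16 * (n * n) := by
  unfold eJ
  rw [Nat.size_eq_bits_len]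
  have h0 : 1 ≤ n * n := Nat.mul_le_mul hn hn
  have h2 : 2 ^ ((8 * (n * n)).size - 1) ≤ 8 * (n * n) := by
    by_contra h4
    rw [not_le] at h4
    have h5 := Nat.size_le.mpr h4
    have h6 : 0 < (8 * (n * n)).size := Nat.size_pos.mpr (by omega)
    omega
  have h4 : 0 < (8 * (n * n)).size := Nat.size_pos.mpr (by omega)
  have h5 : 2 ^ (8 * (n * n)).size = 2 ^ ((8 * (n * n)).size - 1) * 2 := by
    rw [← pow_succ]
    congr 1
    omega
  rw [h5]
  omega

theorem eJ_upoly : UPoly O eJ := by
  have h1 : PTime O (fun u : List Unit => (8 * (u.length * u.length)).bits) := by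
    have h2 : PTime O (fun u : List Unit =>
        (List.replicate (8 * (u.length * u.length)) ()).length) :=
      PTime.length (UPoly.mul (UPoly.const 8) (UPoly.mul UPoly.id UPoly.id))
    simp only [List.length_replicate] at h2
    exact h2.bits
  refine (PTime.ulen h1).of_eq fun u => ?_
  rw [ulen_eq]
  rfl

/-- `v` is a witness for the number, less than the threshold, of weight at most `c` -/
def VfJ (W : ℕ → ℕ → Bool) (ℓ : ℕ → ℕ) (w : List Bool) (v : ℕ) : Bool :=
  (W (colr (e3x w)).length v && decide (v < thr (e3x w))) &&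
    decide (wtv (ℓ (colr (e3x w)).length) (wBs (eJ (ℓ (colr (e3x w)).length)) (e3r w)) v ≤
      (e3c w).length)

section

variable {W : ℕ → ℕ → Bool} {ℓ : ℕ → ℕ}

theorem VfJ_ptime (hver : Ver O W ℓ) : PTime O (fun p : List Bool × ℕ => VfJ W ℓ p.1 p.2) := by
  have hx : PTime O (fun p : List Bool × ℕ => CKP.e3x p.1) := PTime.e3x PTime.id.fst
  have hn : PTime O (fun p : List Bool × ℕ =>
      List.replicate (ℓ (CKP.colr (CKP.e3x p.1)).length) ()) := UPoly.comp hver.hl (PTime.colr hx)
  have he : PTime O (fun p : List Bool × ℕ =>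
      List.replicate (eJ (ℓ (CKP.colr (CKP.e3x p.1)).length)) ()) := by
    have := UPoly.comp (g := eJ) eJ_upoly hn
    simpa only [List.length_replicate] using this
  have h2 := PTime.wtv (v := fun p : List Bool × ℕ => p.2) hn he (PTime.e3r PTime.id.fst)
    PTime.id.snd
  simp only [List.length_replicate] at h2
  unfold VfJ
  exact ((hver.ptime (PTime.colr hx) PTime.id.snd).and (PTime.nat_lt PTime.id.snd
    (PTime.thr hx))).and (PTime.nat_le h2 (PTime.length (PTime.e3c PTime.id.fst)))

theorem VfJ_enc {M : List Unit} {u : ℕ} {ρ : List Bool} {c : ℕ} {v : ℕ} :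
    VfJ W ℓ (enc3 (q1 M u) ρ (List.replicate c ())) v = true ↔
      (W M.length v = true ∧ v < u) ∧
        wtv (ℓ M.length) (wBs (eJ (ℓ M.length)) ρ) v ≤ c := by
  unfold VfJ
  rw [e3x_enc, e3r_enc, e3c_enc, colr_q1, thr_q1, List.length_replicate]
  simp only [Bool.and_eq_true, decide_eq_true_eq]

/-- a bound for the length of the witnesses -/
theorem VfJ_lt {PL : Polynomial ℕ} (hver : Ver O W ℓ) (hPL : ∀ n, ℓ n ≤ PL.eval n) {w : List Bool}
    {v : ℕ} (h : VfJ W ℓ w v = true) :
    v < 2 ^ (PL.comp (9 * Polynomial.X + 4)).eval w.length := by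
  unfold VfJ at h
  rw [Bool.and_eq_true, Bool.and_eq_true] at h
  refine lt_of_lt_of_le (hver.hb _ _ h.1.1) (Nat.pow_le_pow_right (by norm_num) ?_)
  rw [Polynomial.eval_comp]
  refine (hPL _).trans (poly_mono PL ?_)
  have h1 := colr_le (e3x w)
  have h2 := e3x_le w
  simp only [Polynomial.eval_add, Polynomial.eval_mul, Polynomial.eval_ofNat, Polynomial.eval_X]
  omega

/-- the questions are in `NP` -/
theorem BJ_inNP (hver : Ver O W ℓ) : InNP O (BQ (VfJ W ℓ)) := by
  obtain ⟨PL, hPL⟩ := hver.hl.bound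
  exact BQ_inNP (g := fun n => (PL.comp (9 * Polynomial.X + 4)).eval n) (VfJ_ptime hver)
    (UPoly.poly _) fun z v h => VfJ_lt hver hPL h

end

/-! ### the search -/

/-- the instances -/
def insJ (G : List Bool → List Bool) (M : List Unit) (u : ℕ) (ρ : List Bool) (c i : List Unit) :
    List Bool := G (encI (enc3 (q1 M u) ρ c) i)

/-- all instances -/
def famJ (G : List Bool → List Bool) (M : List Unit) (u : ℕ) (ρ : List Bool) (Cm n : List Unit) :
    List (List Bool) := (rangeU Cm).flatMap fun c => (rangeU n).map fun i => insJ G M u ρ c i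

/-- candidates found in the queries -/
def canE (Q : List Bool → List Bool → List (List Bool)) (M : List Unit) (σ : StA) : List ℕ :=
  (curA Q σ).map fun q => (ent (wss q) M.length).2

/-- candidates from the answers for the instances -/
def canI (V : List Bool → List Bool → Bool) (G : List Bool → List Bool) (M : List Unit) (u : ℕ)
    (ρ : List Bool) (Cm n : List Unit) (σ : StA) : List ℕ :=
  (rangeU Cm).map fun c => ofBits ((rangeU n).map fun i =>
    V (insJ G M u ρ c i) (lkS σ (insJ G M u ρ c i)))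

/-- `w` is a witness for `|M|` less than `u` -/
def chk (W : ℕ → ℕ → Bool) (M : List Unit) (u w : ℕ) : Bool := W M.length w && decide (w < u)

/-- the search -/
def srch (O : Lang) (W : ℕ → ℕ → Bool) (ℓ : ℕ → ℕ) (r k : ℕ)
    (Q : List Bool → List Bool → List (List Bool)) (V : List Bool → List Bool → Bool)
    (G : List Bool → List Bool) (U τ s Cm n M : List Unit) (ρ : List Bool) (u : ℕ) : Bool :=
  (rangeU U).any fun v =>
    ((rangeU (() :: τ)).any fun t =>
      (canE Q M (simA O W ℓ r k Q U (famJ G M u ρ Cm n) (jsU t s v.length))).any (chk W M u)) ||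
    (canI V G M u ρ Cm n (simA O W ℓ r k Q U (famJ G M u ρ Cm n) (jsU τ s v.length))).any
      (chk W M u)

section

variable {W : ℕ → ℕ → Bool} {ℓ : ℕ → ℕ} {r k k1 : ℕ} {Q : List Bool → List Bool → List (List Bool)}
    {V : List Bool → List Bool → Bool} {G : List Bool → List Bool}

theorem PTime.insJ (hG : PTime O G) {M c i : γ → List Unit} {u : γ → ℕ} {ρ : γ → List Bool}
    (hM : PTime O M) (hu : PTime O u) (hρ : PTime O ρ) (hc : PTime O c) (hi : PTime O i) :
    PTime O (fun a => CKP.insJ G (M a) (u a) (ρ a) (c a) (i a)) := by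
  unfold CKP.insJ
  have h1 : PTime O (fun a => q1 (M a) (u a)) := by
    unfold q1
    exact PTime.enc ((PTime.const D.nil).consD (hM.code.consD hu.code))
  exact hG.comp (PTime.encI (PTime.enc3 h1 hρ hc) hi)

theorem PTime.famJ (hG : PTime O G) {M Cm n : γ → List Unit} {u : γ → ℕ} {ρ : γ → List Bool}
    (hM : PTime O M) (hu : PTime O u) (hρ : PTime O ρ) (hCm : PTime O Cm) (hn : PTime O n) :
    PTime O (fun a => CKP.famJ G (M a) (u a) (ρ a) (Cm a) (n a)) := by
  unfold CKP.famJ
  refine PTime.flatMap (f := fun a c => (CKP.rangeU (n a)).map fun i =>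
    CKP.insJ G (M a) (u a) (ρ a) c i) (PTime.rangeU hCm) ?_
  refine PTime.map (f := fun (p : γ × List Unit) i =>
    CKP.insJ G (M p.1) (u p.1) (ρ p.1) p.2 i) (PTime.rangeU (hn.comp PTime.id.fst)) ?_
  exact PTime.insJ hG (hM.comp PTime.id.fst.fst) (hu.comp PTime.id.fst.fst)
    (hρ.comp PTime.id.fst.fst) PTime.id.fst.snd PTime.id.snd

theorem PTime.chk (hver : Ver O W ℓ) {M : γ → List Unit} {u w : γ → ℕ} (hM : PTime O M)
    (hu : PTime O u) (hw : PTime O w) : PTime O (fun a => CKP.chk W (M a) (u a) (w a)) := by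
  unfold CKP.chk
  exact (hver.ptime hM hw).and (PTime.nat_lt hw hu)

theorem PTime.canE (hQ : PTime O (fun p : List Bool × List Bool => Q p.1 p.2))
    {M : γ → List Unit} {σ : γ → StA} (hM : PTime O M) (hσ : PTime O σ) :
    PTime O (fun a => CKP.canE Q (M a) (σ a)) := by
  unfold CKP.canE
  refine PTime.map (f := fun a q => (CKP.ent (CKP.wss q) (M a).length).2) (PTime.curA hQ hσ) ?_
  exact (PTime.ent (PTime.wss PTime.id.snd) (hM.comp PTime.id.fst)).snd

theorem PTime.canI (hV : PTime O (fun p : List Bool × List Bool => V p.1 p.2)) (hG : PTime O G)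
    {M Cm n : γ → List Unit} {u : γ → ℕ} {ρ : γ → List Bool} {σ : γ → StA} (hM : PTime O M)
    (hu : PTime O u) (hρ : PTime O ρ) (hCm : PTime O Cm) (hn : PTime O n) (hσ : PTime O σ) :
    PTime O (fun a => CKP.canI V G (M a) (u a) (ρ a) (Cm a) (n a) (σ a)) := by
  unfold CKP.canI
  refine PTime.map (f := fun a c => CKP.ofBits ((CKP.rangeU (n a)).map fun i =>
    V (CKP.insJ G (M a) (u a) (ρ a) c i) (CKP.lkS (σ a) (CKP.insJ G (M a) (u a) (ρ a) c i))))
    (PTime.rangeU hCm) ?_
  refine PTime.ofBits ?_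
  refine PTime.map (f := fun (p : γ × List Unit) i =>
    V (CKP.insJ G (M p.1) (u p.1) (ρ p.1) p.2 i)
      (CKP.lkS (σ p.1) (CKP.insJ G (M p.1) (u p.1) (ρ p.1) p.2 i)))
    (PTime.rangeU (hn.comp PTime.id.fst)) ?_
  have h1 : PTime O (fun p : (γ × List Unit) × List Unit =>
      CKP.insJ G (M p.1.1) (u p.1.1) (ρ p.1.1) p.1.2 p.2) :=
    PTime.insJ hG (hM.comp PTime.id.fst.fst) (hu.comp PTime.id.fst.fst)
      (hρ.comp PTime.id.fst.fst) PTime.id.fst.snd PTime.id.snd
  exact PTime.comp (g := fun p : List Bool × List Bool => V p.1 p.2) hV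
    (h1.pair (PTime.lkS (hσ.comp PTime.id.fst.fst) h1))

theorem PTime.srch (hver : Ver O W ℓ) (r k : ℕ)
    (hQ : PTime O (fun p : List Bool × List Bool => Q p.1 p.2))
    (hQl : ∀ y a, (Q y a).length ≤ y.length + (y.length + 2) ^ k1)
    (hV : PTime O (fun p : List Bool × List Bool => V p.1 p.2)) (hG : PTime O G)
    {U τ s Cm n M : γ → List Unit} {u : γ → ℕ} {ρ : γ → List Bool} (hU : PTime O U)
    (hτ : PTime O τ) (hs : PTime O s) (hCm : PTime O Cm) (hn : PTime O n) (hM : PTime O M)
    (hρ : PTime O ρ) (hu : PTime O u) :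
    PTime O (fun a => CKP.srch O W ℓ r k Q V G (U a) (τ a) (s a) (Cm a) (n a) (M a) (ρ a)
      (u a)) := by
  unfold CKP.srch
  refine PTime.any (f := fun a v =>
    ((CKP.rangeU (() :: τ a)).any fun t => (CKP.canE Q (M a) (CKP.simA O W ℓ r k Q (U a)
      (CKP.famJ G (M a) (u a) (ρ a) (Cm a) (n a)) (CKP.jsU t (s a) v.length))).any
        (CKP.chk W (M a) (u a))) ||
    (CKP.canI V G (M a) (u a) (ρ a) (Cm a) (n a) (CKP.simA O W ℓ r k Q (U a)
      (CKP.famJ G (M a) (u a) (ρ a) (Cm a) (n a)) (CKP.jsU (τ a) (s a) v.length))).any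
        (CKP.chk W (M a) (u a))) (PTime.rangeU hU) ?_
  refine PTime.or ?_ ?_
  · refine PTime.any (f := fun (p : γ × List Unit) t => (CKP.canE Q (M p.1)
      (CKP.simA O W ℓ r k Q (U p.1) (CKP.famJ G (M p.1) (u p.1) (ρ p.1) (Cm p.1) (n p.1))
        (CKP.jsU t (s p.1) p.2.length))).any (CKP.chk W (M p.1) (u p.1)))
        (PTime.rangeU (PTime.cons (PTime.const ()) (hτ.comp PTime.id.fst))) ?_
    refine PTime.any (f := fun (p : (γ × List Unit) × List Unit) w =>
      CKP.chk W (M p.1.1) (u p.1.1) w) ?_ ?_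
    · refine PTime.canE hQ (hM.comp PTime.id.fst.fst) (PTime.simA hver r k hQ hQl
        (hU.comp PTime.id.fst.fst) (PTime.famJ hG (hM.comp PTime.id.fst.fst)
          (hu.comp PTime.id.fst.fst) (hρ.comp PTime.id.fst.fst) (hCm.comp PTime.id.fst.fst)
          (hn.comp PTime.id.fst.fst)) ?_)
      exact PTime.jsU PTime.id.snd (hs.comp PTime.id.fst.fst) PTime.id.fst.snd.length
    · exact PTime.chk hver (hM.comp PTime.id.fst.fst.fst) (hu.comp PTime.id.fst.fst.fst)
        PTime.id.snd
  · refine PTime.any (f := fun (p : γ × List Unit) w => CKP.chk W (M p.1) (u p.1) w) ?_ ?_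
    · refine PTime.canI hV hG (hM.comp PTime.id.fst) (hu.comp PTime.id.fst)
        (hρ.comp PTime.id.fst) (hCm.comp PTime.id.fst) (hn.comp PTime.id.fst)
        (PTime.simA hver r k hQ hQl (hU.comp PTime.id.fst) (PTime.famJ hG
          (hM.comp PTime.id.fst) (hu.comp PTime.id.fst) (hρ.comp PTime.id.fst)
          (hCm.comp PTime.id.fst) (hn.comp PTime.id.fst)) ?_)
      exact PTime.jsU (hτ.comp PTime.id.fst) (hs.comp PTime.id.fst) PTime.id.snd.length
    · exact PTime.chk hver (hM.comp PTime.id.fst.fst) (hu.comp PTime.id.fst.fst) PTime.id.snd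

theorem srch_sound {U τ s Cm n M : List Unit} {ρ : List Bool} {u : ℕ}
    (h : srch O W ℓ r k Q V G U τ s Cm n M ρ u = true) : ∃ w < u, W M.length w = true := by
  unfold srch at h
  rw [List.any_eq_true] at h
  obtain ⟨v, -, h⟩ := h
  have key : ∀ l : List ℕ, l.any (chk W M u) = true → ∃ w < u, W M.length w = true := by
    intro l hl
    rw [List.any_eq_true] at hl
    obtain ⟨w, -, hw⟩ := hl
    unfold chk at hw
    rw [Bool.and_eq_true, decide_eq_true_eq] at hw
    exact ⟨w, hw.2, hw.1⟩
  rw [Bool.or_eq_true] at h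
  rcases h with h | h
  · rw [List.any_eq_true] at h
    obtain ⟨t, -, h⟩ := h
    exact key _ h
  · exact key _ h

end

end Pool.Agent.CKP
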