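import Pool.Agent.Lib_helper57.YF.D

/-!
# Few rounds of queries: completeness of the search (MP_675993_lc)
-/

set_option autoImplicit false
set_option linter.unusedSectionVars false

namespace Pool.Agent.CKP

open Pool.Agent.CK

variable {O : Lang}

section

variable {W : ℕ → ℕ → Bool} {ℓ : ℕ → ℕ} {r k : ℕ} {Q : List Bool → List Bool → List (List Bool)}
    {V : List Bool → List Bool → Bool} {G : List Bool → List Bool}

theorem mem_famJ {M : List Unit} {u : ℕ} {ρ : List Bool} {Cm n : List Unit} {c i : ℕ}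
    (hc : c < Cm.length) (hi : i < n.length) :
    insJ G M u ρ (List.replicate c ()) (List.replicate i ()) ∈ famJ G M u ρ Cm n := by
  unfold famJ
  refine List.mem_flatMap.mpr ⟨List.replicate c (), mem_rangeU.mpr (by simpa using hc), ?_⟩
  exact List.mem_map.mpr ⟨List.replicate i (), mem_rangeU.mpr (by simpa using hi), rfl⟩

/-- a bit of the witness of least weight -/
theorem insJ_bit (hG : ∀ w, BQ (VfJ W ℓ) w = UK O (G w)) {M : List Unit} {u : ℕ}
    {ρ : List Bool} {v : ℕ} (hv : W M.length v = true) (hvu : v < u)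
    (hmin : ∀ v', W M.length v' = true → v' < u →
      wtv (ℓ M.length) (wBs (eJ (ℓ M.length)) ρ) v' ≤
        wtv (ℓ M.length) (wBs (eJ (ℓ M.length)) ρ) v → v' = v) (i : ℕ) :
    UK O (insJ G M u ρ (List.replicate (wtv (ℓ M.length) (wBs (eJ (ℓ M.length)) ρ) v) ())
      (List.replicate i ())) = (v / 2 ^ i).bodd := by
  unfold insJ
  rw [← hG, Bool.eq_iff_iff, BQ_iff, zzI_enc, iiI_enc, List.length_replicate]
  constructor
  · rintro ⟨v', h2, h3⟩
    rw [VfJ_enc] at h2
    rw [hmin v' h2.1.1 h2.1.2 h2.2] at h3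
    exact h3
  · intro h2
    exact ⟨v, VfJ_enc.mpr ⟨⟨hv, hvu⟩, le_rfl⟩, h2⟩

/-- **The search finds a witness**, if the witness of least weight is unique. -/
theorem srch_complete (hver : Ver O W ℓ) (hcut : Cut W ℓ) (htot : ∀ m, ∃ v, W m v = true)
    (hr : 1 ≤ r) {rr : List Bool → ℕ} {At : List Bool → ℕ → List Bool}
    (hF : FRD (UK O) (CL O W r k) Q V rr At) (hG : ∀ w, BQ (VfJ W ℓ) w = UK O (G w))
    {U τ s Cm n M : List Unit} {ρ : List Bool} {u : ℕ} (hU : 2 ^ rt r M.length ≤ U.length)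
    (hn : n.length = ℓ M.length) (hCm : ℓ M.length * 2 ^ eJ (ℓ M.length) < Cm.length)
    (hτ : ∀ y ∈ famJ G M u ρ Cm n, rr y ≤ τ.length)
    (hs : ∀ i < τ.length, jA W Q ((famJ G M u ρ Cm n).map fun y => (y, At y i)) < 2 ^ s.length)
    (hUτ : 2 ^ (τ.length * s.length) ≤ U.length) {v : ℕ} (hv : W M.length v = true) (hvu : v < u)
    (hmin : ∀ v', W M.length v' = true → v' < u →
      wtv (ℓ M.length) (wBs (eJ (ℓ M.length)) ρ) v' ≤
        wtv (ℓ M.length) (wBs (eJ (ℓ M.length)) ρ) v → v' = v) :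
    srch O W ℓ r k Q V G U τ s Cm n M ρ u = true := by
  obtain ⟨Z, hZ⟩ : ∃ Z, Z = famJ G M u ρ Cm n := ⟨_, rfl⟩
  obtain ⟨v0, hv0, hcode⟩ := exists_code s.length τ.length
    (fun i => jA W Q (Z.map fun y => (y, At y i))) (by rw [hZ]; exact hs)
  have hjs : ∀ i ≤ τ.length, jsU (List.replicate i ()) s v0 =
      (List.range i).map fun i => jA W Q (Z.map fun y => (y, At y i)) := by
    intro i hi
    have h1 := jsU_eq (s := s.length) (n := i) (v := v0)
      (j := fun i => jA W Q (Z.map fun y => (y, At y i))) fun j hj => hcode j (by omega)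
    rw [yunits_eq s] at h1
    exact h1
  unfold srch
  rw [List.any_eq_true]
  refine ⟨List.replicate v0 (), mem_rangeU.mpr (by rw [List.length_replicate]; omega), ?_⟩
  rw [List.length_replicate, Bool.or_eq_true, ← hZ]
  by_cases hj : ∃ i, i < τ.length ∧ ∃ q ∈ curA Q (Z.map fun y => (y, At y i)),
      jack W r k M.length q
  · left
    classical
    obtain ⟨hi, q, hq, hqj⟩ := Nat.find_spec hj
    set i := Nat.find hj with hidef
    have hno : ∀ j < i, ∀ q ∈ curA Q (Z.map fun y => (y, At y j)), ¬ jack W r k M.length q := by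
      intro j hj' q hq' hqj'
      exact Nat.find_min hj hj' ⟨by omega, q, hq', hqj'⟩
    have h1 := simA_true hcut htot hr hF hU (Z := Z) i hno
    rw [List.any_eq_true]
    refine ⟨List.replicate i (), mem_rangeU.mpr (by
      rw [List.length_replicate, List.length_cons]; omega), ?_⟩
    rw [hjs i hi.le, h1, List.any_eq_true]
    obtain ⟨-, -, hL, hlt⟩ := hqj
    have hsp := hL M.length hlt
    have h2 : (ent (wss q) M.length).1 = true := hsp.1.mpr (htot _)
    have h3 := hsp.2 h2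
    refine ⟨(ent (wss q) M.length).2, List.mem_map.mpr ⟨q, hq, rfl⟩, ?_⟩
    unfold chk
    rw [Bool.and_eq_true, decide_eq_true_eq]
    refine ⟨h3.1, lt_of_le_of_lt ?_ hvu⟩
    by_contra h4
    exact h3.2 v (not_le.mp h4) hv
  · right
    push Not at hj
    have h1 := simA_true hcut htot hr hF hU (Z := Z) τ.length hj
    have h2 : jsU τ s v0 = (List.range τ.length).map fun i =>
        jA W Q (Z.map fun y => (y, At y i)) := by
      have := hjs τ.length le_rfl
      rw [yunits_eq τ] at this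
      exact this
    rw [h2, h1, List.any_eq_true]
    set w0 := wtv (ℓ M.length) (wBs (eJ (ℓ M.length)) ρ) v with hw0
    have hw : w0 < Cm.length := lt_of_le_of_lt (wtv_le (fun i _ => wBs_lt.le) v) hCm
    refine ⟨v, ?_, ?_⟩
    · unfold canI
      refine List.mem_map.mpr ⟨List.replicate w0 (), mem_rangeU.mpr (by simpa using hw), ?_⟩
      have h3 : n = List.replicate (ℓ M.length) () := by
        rw [← hn]
        exact (yunits_eq n).symm
      rw [h3, rangeU_replicate, List.map_map]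
      have h4 : (List.range (ℓ M.length)).map ((fun i =>
          V (insJ G M u ρ (List.replicate w0 ()) i)
            (lkS (Z.map fun y => (y, At y τ.length)) (insJ G M u ρ (List.replicate w0 ()) i))) ∘
          fun i => List.replicate i ()) =
          (List.range (ℓ M.length)).map fun i => (v / 2 ^ i).bodd := by
        refine List.map_congr_left fun i hi => ?_
        simp only [Function.comp_apply]
        have hmem : insJ G M u ρ (List.replicate w0 ()) (List.replicate i ()) ∈ Z := by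
          rw [hZ]
          exact mem_famJ hw (by rw [hn]; exact List.mem_range.mp hi)
        rw [lkS_eq hmem, hF.hv _ _ (hτ _ (by rw [← hZ]; exact hmem))]
        exact insJ_bit hG hv hvu hmin i
      rw [h4, ofBits_range]
      exact Nat.mod_eq_of_lt (hver.hb _ _ hv)
    · unfold chk
      rw [Bool.and_eq_true, decide_eq_true_eq]
      exact ⟨hv, hvu⟩

end

/-! ### the number of bad random strings -/

/-- the element of least weight is unique -/
def isoW (n e : ℕ) (S : ℕ → Prop) (ρ : List Bool) : Prop :=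
  ∃ v, S v ∧ ∀ v', S v' → wtv n (wBs e ρ) v' ≤ wtv n (wBs e ρ) v → v' = v

theorem iso_bad {n e K : ℕ} {S : ℕ → Prop} (hne : ∃ v, S v) (hS : ∀ v, S v → v < 2 ^ n)
    (hK : n * e ≤ K) :
    Nat.card {ρ : List Bool // ρ.length = K ∧ ¬ isoW n e S ρ} ≤ n * 2 ^ (K - e) := by
  refine le_trans ?_ (bad_union S hK n le_rfl)
  have := d1_finite' K fun ρ => ∃ i < n,
      wBs e ρ i = fI n S i (Function.update (wBs e ρ) i 0)
  refine Nat.card_le_card_of_injective (fun ρ => ⟨ρ.1, ρ.2.1, ?_⟩) ?_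
  · obtain ⟨ρ, hρ, hbad⟩ := ρ
    simp only
    obtain ⟨v, hv, hmin⟩ : ∃ v, S v ∧ ∀ u, S u → wtv n (wBs e ρ) v ≤ wtv n (wBs e ρ) u := by
      have h3 : sInf {w | ∃ u, S u ∧ wtv n (wBs e ρ) u = w} ∈
          {w | ∃ u, S u ∧ wtv n (wBs e ρ) u = w} := by
        obtain ⟨v, hv⟩ := hne
        exact Nat.sInf_mem ⟨_, v, hv, rfl⟩
      obtain ⟨v, hv, hw⟩ := h3
      refine ⟨v, hv, fun u hu => ?_⟩
      rw [hw]
      exact Nat.sInf_le ⟨u, hu, rfl⟩
    unfold isoW at hbad
    push Not at hbad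
    obtain ⟨v', hv', hle, hne'⟩ := hbad v hv
    have hmin' : ∀ u, S u → wtv n (wBs e ρ) v' ≤ wtv n (wBs e ρ) u := fun u hu =>
      hle.trans (hmin u hu)
    obtain ⟨i, hi, hd⟩ : ∃ i < n, (v' / 2 ^ i).bodd ≠ (v / 2 ^ i).bodd := by
      by_contra hcon
      push Not at hcon
      apply hne'
      have h3 := ofBits_range n v'
      have h4 := ofBits_range n v
      rw [Nat.mod_eq_of_lt (hS v' hv')] at h3
      rw [Nat.mod_eq_of_lt (hS v hv)] at h4
      rw [← h3, ← h4]
      congr 1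
      exact List.map_congr_left fun i hi => hcon i (List.mem_range.mp hi)
    refine ⟨i, hi, ?_⟩
    cases h5 : (v / 2 ^ i).bodd
    · have h6 : (v' / 2 ^ i).bodd = true := by
        cases h7 : (v' / 2 ^ i).bodd
        · rw [h5, h7] at hd
          exact absurd rfl hd
        · rfl
      exact fI_eq hi hv' hv h6 h5 hmin' hmin
    · have h6 : (v' / 2 ^ i).bodd = false := by
        cases h7 : (v' / 2 ^ i).bodd
        · rfl
        · rw [h5, h7] at hd
          exact absurd rfl hd
      exact fI_eq hi hv hv' h5 h6 hmin hmin'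
  · rintro ⟨ρ, hρ⟩ ⟨σ, hσ⟩ h
    simpa using h

/-- few strings are bad for one of finitely many sets -/
theorem iso_union {n e K : ℕ} {S : ℕ → ℕ → Prop} (hS : ∀ u v, S u v → v < 2 ^ n)
    (hK : n * e ≤ K) (l : List ℕ) :
    Nat.card {ρ : List Bool // ρ.length = K ∧ ∃ u ∈ l, (∃ v, S u v) ∧ ¬ isoW n e (S u) ρ} ≤
      l.length * (n * 2 ^ (K - e)) := by
  induction l with
  | nil =>
    rw [List.length_nil, Nat.zero_mul]
    have : IsEmpty {ρ : List Bool // ρ.length = K ∧ ∃ u ∈ ([] : List ℕ), (∃ v, S u v) ∧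
        ¬ isoW n e (S u) ρ} := ⟨fun ρ => by
      obtain ⟨u, hu, -⟩ := ρ.2.2
      exact absurd hu (by simp)⟩
    rw [Nat.card_of_isEmpty]
  | cons u l ih =>
    have hf := List.finite_length_eq Bool K
    have h2 : Nat.card {ρ : List Bool // ρ.length = K ∧ ((∃ v, S u v) ∧ ¬ isoW n e (S u) ρ)} ≤
        n * 2 ^ (K - e) := by
      by_cases hne : ∃ v, S u v
      · refine le_trans ?_ (iso_bad hne (hS u) hK)
        have := d1_finite' K fun ρ => ¬ isoW n e (S u) ρ
        refine Nat.card_le_card_of_injective (fun ρ => ⟨ρ.1, ρ.2.1, ρ.2.2.2⟩) ?_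
        rintro ⟨ρ, hρ⟩ ⟨σ, hσ⟩ h
        simpa using h
      · have : IsEmpty {ρ : List Bool // ρ.length = K ∧ ((∃ v, S u v) ∧
            ¬ isoW n e (S u) ρ)} := ⟨fun ρ => hne ρ.2.2.1⟩
        rw [Nat.card_of_isEmpty]
        exact Nat.zero_le _
    have h3 : ({ρ : List Bool | ρ.length = K ∧ ∃ w ∈ u :: l, (∃ v, S w v) ∧
          ¬ isoW n e (S w) ρ}).ncard ≤
        ({ρ : List Bool | ρ.length = K ∧ ((∃ v, S u v) ∧ ¬ isoW n e (S u) ρ)} ∪
        {ρ : List Bool | ρ.length = K ∧ ∃ w ∈ l, (∃ v, S w v) ∧ ¬ isoW n e (S w) ρ}).ncard := by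
      refine Set.ncard_le_ncard ?_ ((hf.subset fun _ h => h.1).union (hf.subset fun _ h => h.1))
      rintro ρ ⟨h4, w, hw, h5⟩
      rcases List.mem_cons.mp hw with rfl | hw
      · exact Or.inl ⟨h4, h5⟩
      · exact Or.inr ⟨h4, w, hw, h5⟩
    have h4 := Set.ncard_union_le {ρ : List Bool | ρ.length = K ∧ ((∃ v, S u v) ∧
        ¬ isoW n e (S u) ρ)} {ρ : List Bool | ρ.length = K ∧ ∃ w ∈ l, (∃ v, S w v) ∧
        ¬ isoW n e (S w) ρ}
    have h5 : (u :: l).length * (n * 2 ^ (K - e)) =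
        n * 2 ^ (K - e) + l.length * (n * 2 ^ (K - e)) := by
      rw [List.length_cons]
      ring
    rw [h5]
    exact h3.trans (h4.trans (Nat.add_le_add h2 ih))

end Pool.Agent.CKP
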