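import Pool.Agent.Lib_helper57.YF.E

/-!
# Few rounds of queries: binary search, bounds (MP_675993_lc)
-/

set_option autoImplicit false
set_option linter.unusedSectionVars false

namespace Pool.Agent.CKP

open Pool.Agent.CK

variable {O : Lang}

/-! ### the thresholds of a binary search -/

/-- the thresholds after the first one -/
def visF (g : ℕ → Bool) : List Unit → List Unit × ℕ → List ℕ
  | [], _ => []
  | _ :: l, s => ushl s.1.tail (Nat.bit true s.2) :: visF g l (gstep g s)

/-- the thresholds for which the binary search asks -/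
def visT (g : ℕ → Bool) (l : List Unit) : List ℕ := ushl l 1 :: visF g l (l, 0)

theorem visF_length (g : ℕ → Bool) : ∀ (l : List Unit) (s : List Unit × ℕ),
    (visF g l s).length = l.length := by
  intro l
  induction l with
  | nil => intro s; rfl
  | cons a l ih => intro s; rw [visF, List.length_cons, ih, List.length_cons]

theorem visT_length (g : ℕ → Bool) (l : List Unit) : (visT g l).length = l.length + 1 := by
  unfold visT
  rw [List.length_cons, visF_length]

theorem foldl_gstep_congr {g g' : ℕ → Bool} : ∀ (l : List Unit) (s : List Unit × ℕ),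
    (∀ t ∈ visF g' l s, g t = g' t) →
    l.foldl (fun s _ => gstep g s) s = l.foldl (fun s _ => gstep g' s) s := by
  intro l
  induction l with
  | nil => intro s _; rfl
  | cons a l ih =>
    intro s h
    rw [List.foldl_cons, List.foldl_cons]
    have h1 : gstep g s = gstep g' s := by
      unfold gstep
      rw [h _ (by rw [visF]; exact List.mem_cons_self)]
    rw [h1]
    exact ih _ fun t ht => h t (by rw [visF]; exact List.mem_cons_of_mem _ ht)

theorem gfind_congr {g g' : ℕ → Bool} {l : List Unit} (h : ∀ t ∈ visT g' l, g t = g' t) :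
    gfind g l = gfind g' l := by
  unfold gfind
  rw [h _ List.mem_cons_self]
  rw [foldl_gstep_congr l (l, 0) fun t ht => h t (List.mem_cons_of_mem _ ht)]

/-- the thresholds are not large -/
theorem visF_le (g : ℕ → Bool) (L : ℕ) : ∀ (l : List Unit) (s : List Unit × ℕ),
    l.length ≤ s.1.length → (s.2 + 1) * 2 ^ s.1.length ≤ 2 ^ L → ∀ t ∈ visF g l s, t ≤ 2 ^ L := by
  intro l
  induction l with
  | nil => intro s _ _ t ht; exact absurd ht (by simp [visF])
  | cons a l ih =>
    intro s hl h t ht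
    obtain ⟨s1, s2⟩ := s
    obtain ⟨a1, s1, rfl⟩ : ∃ a1 s1', s1 = a1 :: s1' := by
      cases s1 with
      | nil => simp at hl
      | cons a1 s1 => exact ⟨a1, s1, rfl⟩
    simp only [List.length_cons] at h hl
    have h1 : 2 ^ (s1.length + 1) = 2 * 2 ^ s1.length := by rw [pow_succ]; ring
    rw [h1] at h
    rw [visF] at ht
    rcases List.mem_cons.mp ht with rfl | ht
    · rw [ushl_eq, Nat.bit_val]
      simp only [List.tail_cons, Bool.toNat_true]
      refine le_trans ?_ h
      have h2 : (2 * s2 + 1) ≤ (s2 + 1) * 2 := by omega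
      calc (2 * s2 + 1) * 2 ^ s1.length ≤ (s2 + 1) * 2 * 2 ^ s1.length :=
            Nat.mul_le_mul_right _ h2
        _ = (s2 + 1) * (2 * 2 ^ s1.length) := by ring
    · refine ih _ (by unfold gstep; simpa using hl) ?_ t ht
      unfold gstep
      simp only [List.tail_cons]
      have h3 : ∀ b : Bool, (Nat.bit b s2 + 1) * 2 ^ s1.length ≤
          (s2 + 1) * (2 * 2 ^ s1.length) := by
        intro b
        rw [Nat.bit_val]
        have h4 : 2 * s2 + b.toNat + 1 ≤ (s2 + 1) * 2 := by
          cases b <;> simp <;> omega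
        calc (2 * s2 + b.toNat + 1) * 2 ^ s1.length ≤ (s2 + 1) * 2 * 2 ^ s1.length :=
              Nat.mul_le_mul_right _ h4
          _ = (s2 + 1) * (2 * 2 ^ s1.length) := by ring
      split_ifs
      · exact (h3 false).trans h
      · exact (h3 true).trans h

theorem visT_le (g : ℕ → Bool) (l : List Unit) : ∀ t ∈ visT g l, t ≤ 2 ^ l.length := by
  intro t ht
  rcases List.mem_cons.mp ht with rfl | ht
  · rw [ushl_eq, one_mul]
  · exact visF_le g l.length l (l, 0) le_rfl (by simp) t ht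

/-! ### bounds -/

section

variable {W : ℕ → ℕ → Bool} {ℓ : ℕ → ℕ} {k1 : ℕ} {Q : List Bool → List Bool → List (List Bool)}
    {V : List Bool → List Bool → Bool} {G : List Bool → List Bool}

theorem At_len {A C : Lang} {rr : List Bool → ℕ} {At : List Bool → ℕ → List Bool}
    (hF : FRD A C Q V rr At)
    (hQl : ∀ y a, (Q y a).length ≤ y.length + (y.length + 2) ^ k1) (y : List Bool) (i : ℕ) :
    (At y i).length ≤ i * (y.length + (y.length + 2) ^ k1) := by
  induction i with
  | zero => rw [hF.h0]; simp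
  | succ i ih =>
    rw [hF.hs, List.length_append, List.length_map]
    have h1 := hQl y (At y i)
    have h2 : (i + 1) * (y.length + (y.length + 2) ^ k1) =
        i * (y.length + (y.length + 2) ^ k1) + (y.length + (y.length + 2) ^ k1) := by ring
    omega

/-- a polynomial of a power is bounded by a power -/
theorem poly_pow (P : Polynomial ℕ) (e : ℕ) : ∃ e', ∀ N : ℕ, P.eval ((N + 2) ^ e) ≤ (N + 2) ^ e' := by
  obtain ⟨k, hk⟩ := exists_pow P
  refine ⟨(e + 2) * k, fun N => (hk _).trans ?_⟩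
  rw [pow_mul]
  refine Nat.pow_le_pow_left ?_ k
  have h1 : 1 ≤ (N + 2) ^ e := Nat.one_le_pow _ _ (by omega)
  have h2 : (N + 2) ^ (e + 2) = (N + 2) ^ e * ((N + 2) * (N + 2)) := by ring
  have h3 : 4 ≤ (N + 2) * (N + 2) := by nlinarith [Nat.zero_le N]
  have h4 : (N + 2) ^ e * 4 ≤ (N + 2) ^ e * ((N + 2) * (N + 2)) := Nat.mul_le_mul_left _ h3
  omega

/-- the number of thresholds for the weights -/
def CmJ (n : ℕ) : ℕ := n * (16 * (n * n)) + 1

theorem CmJ_lt (n : ℕ) : n * 2 ^ eJ n < CmJ n := by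
  unfold CmJ
  rcases Nat.eq_zero_or_pos n with rfl | hn
  · simp
  · have := Nat.mul_le_mul_left n (eJ_hi hn)
    omega

theorem CmJ_upoly : UPoly O CmJ := by
  unfold CmJ
  exact (UPoly.id.mul ((UPoly.const 16).mul (UPoly.id.mul UPoly.id))).add (UPoly.const 1)

theorem sz_nat_le_pow {u L : ℕ} (h : u ≤ 2 ^ L) : sz u ≤ 4 * (L + 1) + 1 :=
  sz_nat_le_of_lt (lt_of_le_of_lt h (Nat.pow_lt_pow_right (by norm_num) (Nat.lt_succ_self L)))

theorem exists_boundsJ {rr : List Bool → ℕ} {At : List Bool → ℕ → List Bool} {A C : Lang}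
    (hF : FRD A C Q V rr At) (hver : Ver O W ℓ) (hG : PTime O G)
    (hQ : PTime O (fun p : List Bool × List Bool => Q p.1 p.2))
    (hQl : ∀ y a, (Q y a).length ≤ y.length + (y.length + 2) ^ k1) (k0 : ℕ) :
    ∃ e1 : ℕ, ∀ k2 : ℕ, ∃ e2 : ℕ, ∀ (N : ℕ) (M : List Unit) (u : ℕ) (ρ : List Bool),
      M.length ≤ N → u ≤ 2 ^ ℓ M.length → ρ.length ≤ (N + 2) ^ k0 →
      (∀ y ∈ famJ G M u ρ (List.replicate (CmJ (ℓ M.length)) ()) (List.replicate (ℓ M.length) ()),
        y.length ≤ (N + 2) ^ e1) ∧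
      ∀ i ≤ (N + 2) ^ k2, jA W Q ((famJ G M u ρ (List.replicate (CmJ (ℓ M.length)) ())
        (List.replicate (ℓ M.length) ())).map fun y => (y, At y i)) ≤ (N + 2) ^ e2 := by
  obtain ⟨PL, hPL⟩ := hver.hl.bound
  obtain ⟨PF, hPF⟩ := (PTime.famJ (O := O)
    (γ := List Unit × ℕ × List Bool × List Unit × List Unit) hG
    (M := fun p => p.1) (u := fun p => p.2.1) (ρ := fun p => p.2.2.1) (Cm := fun p => p.2.2.2.1)
    (n := fun p => p.2.2.2.2) PTime.id.fst PTime.id.snd.fst PTime.id.snd.snd.fst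
    PTime.id.snd.snd.snd.fst PTime.id.snd.snd.snd.snd).size_le
  obtain ⟨PA, hPA⟩ := (PTime.thsA (O := O) (γ := StA) hQ (σ := fun p => p) PTime.id).size_le
  obtain ⟨eF, heF⟩ := poly_pow (PF.comp (2 * Polynomial.X + 1 +
    (4 * (PL + 1) + 1 + (4 * Polynomial.X + 1 + ((2 * (PL * (16 * (PL * PL)) + 1) + 1) +
      (2 * PL + 1) + 1) + 1) + 1) + 1)) (k0 + 1)
  refine ⟨eF, fun k2 => ?_⟩
  obtain ⟨eA, heA⟩ := poly_pow (PA.comp (Polynomial.X + Polynomial.X *
    (4 * (Polynomial.X * (Polynomial.X + (Polynomial.X + 2) ^ k1)) + 2))) (eF + k2)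
  refine ⟨eA, fun N M u ρ hM hu hρ => ?_⟩
  obtain ⟨Z, hZ⟩ : ∃ Z, Z = famJ G M u ρ (List.replicate (CmJ (ℓ M.length)) ())
    (List.replicate (ℓ M.length) ()) := ⟨_, rfl⟩
  rw [← hZ]
  have hN1 : N ≤ (N + 2) ^ (k0 + 1) := by
    have h1 : (N + 2) ^ 1 ≤ (N + 2) ^ (k0 + 1) := Nat.pow_le_pow_right (by omega) (by omega)
    rw [pow_one] at h1
    omega
  have hL : ℓ M.length ≤ PL.eval ((N + 2) ^ (k0 + 1)) :=
    (hPL _).trans (poly_mono PL (hM.trans hN1))
  have hszZ : sz Z ≤ (N + 2) ^ eF := by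
    rw [hZ]
    refine (hPF (M, u, ρ, List.replicate (CmJ (ℓ M.length)) (),
      List.replicate (ℓ M.length) ())).trans (le_trans ?_ (heF N))
    rw [Polynomial.eval_comp]
    refine poly_mono PF ?_
    rw [sz_pair, sz_pair, sz_pair, sz_pair, sz_units, sz_units, sz_units, List.length_replicate,
      List.length_replicate]
    have h1 := sz_nat_le_pow hu
    have h2 : sz ρ ≤ 4 * ρ.length + 1 := size_bits ρ
    have h3 : (N + 2) ^ k0 ≤ (N + 2) ^ (k0 + 1) := Nat.pow_le_pow_right (by omega) (by omega)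
    have h4 : CmJ (ℓ M.length) ≤ PL.eval ((N + 2) ^ (k0 + 1)) * (16 *
        (PL.eval ((N + 2) ^ (k0 + 1)) * PL.eval ((N + 2) ^ (k0 + 1)))) + 1 := by
      unfold CmJ
      gcongr
    simp only [Polynomial.eval_add, Polynomial.eval_mul, Polynomial.eval_ofNat,
      Polynomial.eval_X, Polynomial.eval_one]
    omega
  have hy : ∀ y ∈ Z, y.length ≤ sz Z := fun y hy => le_of_mem_list hy
  refine ⟨fun y hy' => (hy y hy').trans hszZ, fun i hi => ?_⟩
  have hszσ : sz (Z.map fun y => (y, At y i)) ≤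
      sz Z + sz Z * (4 * (i * (sz Z + (sz Z + 2) ^ k1)) + 2) := by
    have h1 := sz_state (Z.map fun y => (y, At y i)) (i * (sz Z + (sz Z + 2) ^ k1)) (by
      intro p hp
      obtain ⟨y, hy', rfl⟩ := List.mem_map.mp hp
      refine (At_len hF hQl y i).trans (Nat.mul_le_mul_left i ?_)
      exact Nat.add_le_add (hy y hy') (Nat.pow_le_pow_left (by have := hy y hy'; omega) _))
    have h2 : (Z.map fun y => (y, At y i)).map Prod.fst = Z := by
      rw [List.map_map]
      exact List.map_id _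
    rw [h2, List.length_map] at h1
    exact h1.trans (Nat.add_le_add_left (Nat.mul_le_mul_right _ (length_le_sz Z)) _)
  have h1 : jA W Q (Z.map fun y => (y, At y i)) ≤ sz (thsA Q (Z.map fun y => (y, At y i))) :=
    (cntT_le _ _).trans (length_le_sz _)
  refine h1.trans ((hPA _).trans (le_trans ?_ (heA N)))
  rw [Polynomial.eval_comp]
  refine poly_mono PA (hszσ.trans ?_)
  have h2 : sz Z ≤ (N + 2) ^ (eF + k2) :=
    hszZ.trans (Nat.pow_le_pow_right (by omega) (by omega))
  have h3 : i ≤ (N + 2) ^ (eF + k2) :=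
    hi.trans (Nat.pow_le_pow_right (by omega) (by omega))
  simp only [Polynomial.eval_add, Polynomial.eval_mul, Polynomial.eval_ofNat,
    Polynomial.eval_X, Polynomial.eval_pow]
  gcongr

end

end Pool.Agent.CKP
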