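import Pool.Agent.Lib_helper57.YF.F

/-!
# Few rounds of queries: programs with random bits in double exponential time, growth (MP_675993_lc)
-/

set_option autoImplicit false
set_option linter.unusedSectionVars false

namespace Pool.Agent.CKP

open Pool.Agent.CK

variable {O : Lang}

/-! ### programs with two inputs -/

theorem XT.run2_dec {V : List Bool → List Bool → Bool} {g : List Bool × List Bool → ℕ}
    (h : XT O (fun p : List Bool × List Bool => V p.1 p.2) g) :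
    ∃ (c : Cmd) (k : ℕ), ∀ x y : List Bool, ∃ t ≤ (x.length + y.length + g (x, y) + 2) ^ k,
      Halts O c x y t ∧ (Accepts O c x y t ↔ V x y = true) := by
  obtain ⟨p, m, P, hp⟩ := h
  obtain ⟨k, hk⟩ := exists_pow (16 * Polynomial.X + 20 + P.comp (4 * Polynomial.X + 3))
  refine ⟨.seq r2_prep p, k, fun x y => ?_⟩
  have e1 := r2_prep_ex (O := O) x y
  have e2 : Ex O p (S4 (fun _ => []) (toD (x, y)).enc [] [] [])
      (Function.update (S4 (fun _ => []) (toD (x, y)).enc [] [] []) 0 (toD (V x y)).enc)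
      (P.eval (sz (x, y) + g (x, y))) :=
    hp (x, y) _ rfl (fun r hr _ => r2_nil _ r hr)
  obtain ⟨t, ht, he⟩ := e1.seq e2
  refine ⟨t, ht.trans (le_trans ?_ (hk (x.length + y.length + g (x, y)))), ?_⟩
  · have h1 : sz (x, y) ≤ 4 * (x.length + y.length) + 3 := r2_size x y
    have h2 := poly_mono P (show sz (x, y) + g (x, y) ≤
      4 * (x.length + y.length + g (x, y)) + 3 by omega)
    simp only [Polynomial.eval_comp, Polynomial.eval_add, Polynomial.eval_mul,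
      Polynomial.eval_ofNat, Polynomial.eval_X]
    omega
  · have hrun := he.run le_rfl
    unfold Halts Accepts
    rw [hrun]
    refine ⟨rfl, ?_⟩
    simp only [true_and, Function.update_self]
    cases V x y <;> simp [ToD.toD, D.enc]

/-! ### roots and sizes -/

theorem rt_ge_real {r : ℕ} (hr : 1 ≤ r) (n : ℕ) : (n : ℝ) ^ (1 / (r : ℝ)) ≤ rt r n := by
  have h1 : ⌊(n : ℝ) ^ (1 / (r : ℝ))⌋₊ ^ r ≤ n := by
    have h2 : ((⌊(n : ℝ) ^ (1 / (r : ℝ))⌋₊ : ℕ) : ℝ) ≤ (n : ℝ) ^ (1 / (r : ℝ)) :=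
      Nat.floor_le (by positivity)
    have h3 : (((⌊(n : ℝ) ^ (1 / (r : ℝ))⌋₊ : ℕ) : ℝ)) ^ r ≤ ((n : ℝ) ^ (1 / (r : ℝ))) ^ r :=
      pow_le_pow_left₀ (by positivity) h2 r
    have hr0 : (r : ℝ) ≠ 0 := by
      have : (0 : ℝ) < r := by exact_mod_cast (by omega : 0 < r)
      exact this.ne'
    have h4 : ((n : ℝ) ^ (1 / (r : ℝ))) ^ r = n := by
      rw [← Real.rpow_natCast, ← Real.rpow_mul (by positivity), one_div_mul_cancel hr0,
        Real.rpow_one]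
    rw [h4] at h3
    exact_mod_cast h3
  have h2 := rt_ge hr h1
  have h3 := (Nat.lt_floor_add_one ((n : ℝ) ^ (1 / (r : ℝ)))).le
  refine h3.trans ?_
  exact_mod_cast h2

theorem size_le_rpow {δ : ℝ} (hδ : 0 < δ) : ∃ K : ℝ, 0 ≤ K ∧ ∀ n : ℕ, 1 ≤ n →
    ((n.size : ℕ) : ℝ) ≤ K * (n : ℝ) ^ δ + 1 := by
  obtain ⟨K, hK, hKY⟩ := growth2 hδ
  refine ⟨K, hK, fun n hn => ?_⟩
  have h1 : 2 ^ (n.size - 1) ≤ n := by
    by_contra h4
    rw [not_le] at h4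
    have h5 := Nat.size_le.mpr h4
    have h6 : 0 < n.size := Nat.size_pos.mpr hn
    omega
  have h2 : (2 : ℝ) ^ ((n.size - 1 : ℕ) : ℝ) ≤ (2 : ℝ) ^ (K * (n : ℝ) ^ δ) := by
    rw [Real.rpow_natCast]
    refine le_trans ?_ (hKY n (by exact_mod_cast hn))
    exact_mod_cast h1
  have h3 := (Real.rpow_le_rpow_left_iff (by norm_num : (1 : ℝ) < 2)).mp h2
  have h4 : (n.size : ℝ) ≤ ((n.size - 1 : ℕ) : ℝ) + 1 := by
    exact_mod_cast (by omega : n.size ≤ n.size - 1 + 1)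
  linarith

/-! ### growth -/

/-- inputs of length `n` with `2 ^ (k0 (n + 1))` random bits, time polynomial in
`2 ^ (n + 1) + 2 ^ e`, `e ≤ C (2 ^ (n + 1)) ^ δ + C` -/
theorem growthC (k k0 : ℕ) {C δ ε : ℝ} (hC : 0 ≤ C) (hδ : 0 < δ) (hε : δ < ε) :
    ∃ a : ℕ, ∀ (n e : ℕ), (e : ℝ) ≤ C * ((2 : ℝ) ^ (n + 1)) ^ δ + C →
      (((n + 2 ^ (k0 * (n + 1)) + (2 ^ (n + 1) + 2 ^ e) + 2) ^ k : ℕ) : ℝ) ≤
        a * (2 : ℝ) ^ ((2 : ℝ) ^ (ε * n)) := by
  obtain ⟨K, hK, hKY⟩ := growth2 hδ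
  obtain ⟨a, ha⟩ := growth1 (C := k * (((k0 + 2) * K + C) * 2 ^ δ)) (D := k * (3 + C)) (δ := δ)
    (ε := ε) (by positivity) hδ hε
  refine ⟨a, fun n e he => ?_⟩
  have hX : (2 : ℝ) ^ (ε * n) = ((2 : ℝ) ^ (n : ℝ)) ^ ε := by
    rw [← Real.rpow_mul (by norm_num), mul_comm]
  rw [hX]
  refine ha ((2 : ℝ) ^ (n : ℝ)) _ (by positivity) ?_
  set X := (2 : ℝ) ^ (n : ℝ) with hXd
  have hXp : 0 < X := by positivity
  have hXn : X = 2 ^ n := Real.rpow_natCast 2 n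
  have h0 : ((2 : ℝ) ^ (n + 1)) ^ δ = 2 ^ δ * X ^ δ := by
    rw [pow_succ, mul_comm, ← hXn, Real.mul_rpow (by norm_num) hXp.le]
  have hn : ((n : ℝ) + 1) ≤ K * (2 ^ δ * X ^ δ) := by
    have h1 := hKY ((2 : ℝ) ^ (n + 1)) (by positivity)
    rw [h0, ← Real.rpow_natCast] at h1
    have h2 := (Real.rpow_le_rpow_left_iff (by norm_num : (1 : ℝ) < 2)).mp h1
    push_cast at h2
    exact h2
  have hnat : n + 2 ^ (k0 * (n + 1)) + (2 ^ (n + 1) + 2 ^ e) + 2 ≤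
      2 ^ ((k0 + 2) * (n + 1) + 3 + e) := by
    have g1 : n + 2 ≤ 2 ^ (n + 1) := by
      have : n + 1 < 2 ^ (n + 1) := Nat.lt_two_pow_self
      omega
    have g2 : 1 ≤ 2 ^ (k0 * (n + 1)) := Nat.one_le_two_pow
    have g3 : 1 ≤ 2 ^ e := Nat.one_le_two_pow
    have g4 : 2 ^ ((k0 + 2) * (n + 1) + 3 + e) =
        8 * (2 ^ (k0 * (n + 1)) * (2 ^ (n + 1) * 2 ^ (n + 1)) * 2 ^ e) := by
      have : (k0 + 2) * (n + 1) + 3 + e = 3 + (k0 * (n + 1) + ((n + 1) + (n + 1)) + e) := by ring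
      rw [this, pow_add, pow_add, pow_add, pow_add]
      norm_num
    rw [g4]
    generalize 2 ^ (k0 * (n + 1)) = A at *
    generalize 2 ^ (n + 1) = B at *
    generalize 2 ^ e = E at *
    have g5 : 1 ≤ B := by omega
    have g6 : A ≤ A * (B * B) * E := by
      calc A = A * (1 * 1) * 1 := by ring
        _ ≤ A * (B * B) * E := by gcongr
    have g7 : B ≤ A * (B * B) * E := by
      calc B = 1 * (B * 1) * 1 := by ring
        _ ≤ A * (B * B) * E := by gcongr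
    have g8 : E ≤ A * (B * B) * E := by
      calc E = 1 * (1 * 1) * E := by ring
        _ ≤ A * (B * B) * E := by gcongr
    omega
  have h4 : ((n + 2 ^ (k0 * (n + 1)) + (2 ^ (n + 1) + 2 ^ e) + 2 : ℕ) : ℝ) ≤
      (2 : ℝ) ^ (((k0 + 2) * K + C) * 2 ^ δ * X ^ δ + (3 + C)) := by
    have h5 : ((n + 2 ^ (k0 * (n + 1)) + (2 ^ (n + 1) + 2 ^ e) + 2 : ℕ) : ℝ) ≤
        (2 : ℝ) ^ (((k0 + 2) * (n + 1) + 3 + e : ℕ) : ℝ) := by
      rw [Real.rpow_natCast]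
      exact_mod_cast hnat
    refine h5.trans (Real.rpow_le_rpow_of_exponent_le (by norm_num) ?_)
    push_cast
    rw [h0] at he
    have h6 : ((k0 : ℝ) + 2) * ((n : ℝ) + 1) ≤ ((k0 : ℝ) + 2) * (K * (2 ^ δ * X ^ δ)) :=
      mul_le_mul_of_nonneg_left hn (by positivity)
    nlinarith
  rw [Nat.cast_pow]
  calc (((n + 2 ^ (k0 * (n + 1)) + (2 ^ (n + 1) + 2 ^ e) + 2 : ℕ) : ℝ)) ^ k
      ≤ ((2 : ℝ) ^ (((k0 + 2) * K + C) * 2 ^ δ * X ^ δ + (3 + C))) ^ k :=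
        pow_le_pow_left₀ (by positivity) h4 k
    _ = (2 : ℝ) ^ ((((k0 + 2) * K + C) * 2 ^ δ * X ^ δ + (3 + C)) * k) := by
        rw [← Real.rpow_natCast, ← Real.rpow_mul (by norm_num)]
    _ = (2 : ℝ) ^ (k * (((k0 + 2) * K + C) * 2 ^ δ) * X ^ δ + k * (3 + C)) := by
        congr 1
        ring

end Pool.Agent.CKP
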