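import Pool.Agent.Lib_helper57.YF.G
import Pool.Agent.Lib_helper74.KY.Blk.G2

/-!
# Few rounds of queries: `E^NP` in randomized double exponential time (MP_675993_lc)
-/

set_option autoImplicit false
set_option linter.unusedSectionVars false

namespace Pool.Agent.CKP

open Pool.Agent.CK

variable {O : Lang}
variable {α β γ δ : Type} [ToD α] [ToD β] [ToD γ] [ToD δ]

/-- a bound for the number of rounds -/
def tauJ (R b N : ℕ) : ℕ := rt R (N + 2) + b
/-- the number of bits for a number of true comparisons -/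
def sJ (e2 N : ℕ) : ℕ := e2 * (N + 2).bits.length + 1
/-- the exponent of the running time -/
def EJ (r R b e2 N : ℕ) : ℕ := rt r N + tauJ R b N * sJ e2 N

theorem tauJ_upoly (R b : ℕ) : UPoly O (tauJ R b) := by
  have h1 : UPoly O (fun n => rt R (n + 2)) := by
    have := (rt_upoly (O := O) R).comp (UPoly.id.add (UPoly.const 2) : UPoly O fun n => n + 2)
    simp only [List.length_replicate] at this
    exact this
  exact h1.add (UPoly.const b)

theorem sJ_upoly (e2 : ℕ) : UPoly O (sJ e2) := by
  have h1 : UPoly O (fun n => (n + 2).bits.length) := by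
    have h2 : PTime O (fun u : List Unit => (u.length + 2).bits) := by
      have h3 : PTime O (fun u : List Unit => (List.replicate (u.length + 2) ()).length) :=
        PTime.length (UPoly.add UPoly.id (UPoly.const 2))
      simp only [List.length_replicate] at h3
      exact h3.bits
    refine (PTime.ulen h2).of_eq fun u => ?_
    rw [ulen_eq]
  exact ((UPoly.const e2).mul h1).add (UPoly.const 1)

theorem EJ_upoly (r R b e2 : ℕ) : UPoly O (EJ r R b e2) :=
  (rt_upoly r).add ((tauJ_upoly R b).mul (sJ_upoly e2))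

/-- the decision with random bits `ρ` -/
def solJ (O : Lang) (W : ℕ → ℕ → Bool) (ℓ : ℕ → ℕ) (r k : ℕ)
    (Q : List Bool → List Bool → List (List Bool)) (V : List Bool → List Bool → Bool)
    (G : List Bool → List Bool) (R b e2 : ℕ) (ans : List Unit → ℕ → Bool) (U N : List Unit)
    (x ρ : List Bool) : Bool :=
  ans (toNum N x) (gfind (srch O W ℓ r k Q V G U (List.replicate (tauJ R b N.length) ())
    (List.replicate (sJ e2 N.length) ())
    (List.replicate (CmJ (ℓ (toNum N x).length)) ()) (List.replicate (ℓ (toNum N x).length) ())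
    (toNum N x) ρ) (List.replicate (ℓ (toNum N x).length) ())).2

section

variable {W : ℕ → ℕ → Bool} {ℓ : ℕ → ℕ} {r k k1 : ℕ} {Q : List Bool → List Bool → List (List Bool)}
    {V : List Bool → List Bool → Bool} {G : List Bool → List Bool} {ans : List Unit → ℕ → Bool}

theorem PTime.solJ (hver : Ver O W ℓ) (r k : ℕ)
    (hQ : PTime O (fun p : List Bool × List Bool => Q p.1 p.2))
    (hQl : ∀ y a, (Q y a).length ≤ y.length + (y.length + 2) ^ k1)
    (hV : PTime O (fun p : List Bool × List Bool => V p.1 p.2)) (hG : PTime O G)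
    (R b e2 : ℕ) (hans : PTime O (fun p : List Unit × ℕ => ans p.1 p.2)) {U N : γ → List Unit}
    {x ρ : γ → List Bool} (hU : PTime O U) (hN : PTime O N) (hx : PTime O x) (hρ : PTime O ρ) :
    PTime O (fun a => CKP.solJ O W ℓ r k Q V G R b e2 ans (U a) (N a) (x a) (ρ a)) := by
  unfold CKP.solJ
  have hM : PTime O (fun a => CKP.toNum (N a) (x a)) := PTime.toNum hN hx
  have hn : PTime O (fun a => List.replicate (ℓ (CKP.toNum (N a) (x a)).length) ()) :=
    UPoly.comp hver.hl hM
  have hC : PTime O (fun a => List.replicate (CmJ (ℓ (CKP.toNum (N a) (x a)).length)) ()) := by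
    have := UPoly.comp (g := CmJ) CmJ_upoly hn
    simpa only [List.length_replicate] using this
  have hg : PTime O (fun p : γ × ℕ => CKP.srch O W ℓ r k Q V G (U p.1)
      (List.replicate (tauJ R b (N p.1).length) ()) (List.replicate (sJ e2 (N p.1).length) ())
      (List.replicate (CmJ (ℓ (CKP.toNum (N p.1) (x p.1)).length)) ())
      (List.replicate (ℓ (CKP.toNum (N p.1) (x p.1)).length) ()) (CKP.toNum (N p.1) (x p.1))
      (ρ p.1) p.2) :=
    PTime.srch hver r k hQ hQl hV hG (hU.comp PTime.id.fst)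
      (UPoly.comp (g := tauJ R b) (tauJ_upoly R b) (hN.comp PTime.id.fst))
      (UPoly.comp (g := sJ e2) (sJ_upoly e2) (hN.comp PTime.id.fst)) (hC.comp PTime.id.fst)
      (hn.comp PTime.id.fst) (hM.comp PTime.id.fst) (hρ.comp PTime.id.fst) PTime.id.snd
  exact hans.comp (hM.pair (PTime.gfind (g := fun a t => CKP.srch O W ℓ r k Q V G (U a)
      (List.replicate (tauJ R b (N a).length) ()) (List.replicate (sJ e2 (N a).length) ())
      (List.replicate (CmJ (ℓ (CKP.toNum (N a) (x a)).length)) ())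
      (List.replicate (ℓ (CKP.toNum (N a) (x a)).length) ()) (CKP.toNum (N a) (x a))
      (ρ a) t) hn hg).snd)

open Classical in
/-- the ideal search -/
noncomputable def gSt (W : ℕ → ℕ → Bool) (m t : ℕ) : Bool := decide (∃ v < t, W m v = true)

theorem gSt_iff {m t : ℕ} : gSt W m t = true ↔ ∃ v < t, W m v = true := by
  simp only [gSt, decide_eq_true_eq]

/-- the decision is right for a good random string -/
theorem solJ_eq (hver : Ver O W ℓ) (hcut : Cut W ℓ) (htot : ∀ m, ∃ v, W m v = true)
    (hr : 1 ≤ r) {rr : List Bool → ℕ} {At : List Bool → ℕ → List Bool}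
    (hF : FRD (UK O) (CL O W r k) Q V rr At) (hG : ∀ w, BQ (VfJ W ℓ) w = UK O (G w))
    {L : Lang} (hansL : ∀ (x : List Bool) (s : Bool × ℕ), LeastSpec W (num x) s →
      ans (List.replicate (num x) ()) s.2 = L x) {R b e2 : ℕ} {x ρ : List Bool}
    (hb : ∀ u ≤ 2 ^ ℓ (num x), (∀ y ∈ famJ G (List.replicate (num x) ()) u ρ
        (List.replicate (CmJ (ℓ (num x))) ()) (List.replicate (ℓ (num x)) ()),
        rr y ≤ tauJ R b (2 ^ (x.length + 1))) ∧
      ∀ i < tauJ R b (2 ^ (x.length + 1)), jA W Q ((famJ G (List.replicate (num x) ()) u ρ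
        (List.replicate (CmJ (ℓ (num x))) ()) (List.replicate (ℓ (num x)) ())).map
          fun y => (y, At y i)) < 2 ^ sJ e2 (2 ^ (x.length + 1)))
    (hρ : ∀ u ∈ visT (gSt W (num x)) (List.replicate (ℓ (num x)) ()),
      (∃ v, W (num x) v = true ∧ v < u) →
        isoW (ℓ (num x)) (eJ (ℓ (num x))) (fun v => W (num x) v = true ∧ v < u) ρ) :
    solJ O W ℓ r k Q V G R b e2 ans
      (List.replicate (2 ^ EJ r R b e2 (2 ^ (x.length + 1))) ())
      (List.replicate (2 ^ (x.length + 1)) ()) x ρ = L x := by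
  have hM : toNum (List.replicate (2 ^ (x.length + 1)) ()) x = List.replicate (num x) () :=
    toNum_eq _ _ (by rw [List.length_replicate]; exact (num_lt x).le)
  obtain ⟨m, hm⟩ : ∃ m, m = num x := ⟨_, rfl⟩
  obtain ⟨N, hN⟩ : ∃ N, N = 2 ^ (x.length + 1) := ⟨_, rfl⟩
  have hmN : m ≤ N := by rw [hm, hN]; exact (num_lt x).le
  rw [← hm, ← hN] at hb
  rw [← hm] at hρ
  rw [← hN, ← hm] at hM
  rw [← hN]
  unfold solJ
  rw [hM]
  simp only [List.length_replicate]
  set g := srch O W ℓ r k Q V G (List.replicate (2 ^ EJ r R b e2 N) ())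
    (List.replicate (tauJ R b N) ()) (List.replicate (sJ e2 N) ())
    (List.replicate (CmJ (ℓ m)) ()) (List.replicate (ℓ m) ()) (List.replicate m ()) ρ with hg
  have hgg : ∀ t ∈ visT (gSt W m) (List.replicate (ℓ m) ()), g t = gSt W m t := by
    intro t ht
    have htle : t ≤ 2 ^ ℓ m := by
      have := visT_le _ _ t ht
      rwa [List.length_replicate] at this
    rw [Bool.eq_iff_iff, gSt_iff]
    constructor
    · intro h
      rw [hg] at h
      obtain ⟨w, hw, hW⟩ := srch_sound h
      rw [List.length_replicate] at hW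
      exact ⟨w, hw, hW⟩
    · rintro ⟨v0, hv0, hWv0⟩
      obtain ⟨v, ⟨hv, hvt⟩, hmin⟩ := hρ t ht ⟨v0, hWv0, hv0⟩
      rw [hg]
      have hE : rt r m ≤ EJ r R b e2 N :=
        (rt_mono r hmN).trans (Nat.le_add_right _ _)
      refine srch_complete hver hcut htot hr hF hG (v := v) ?_ ?_ ?_ ?_ ?_ ?_ ?_ hvt ?_
      · rw [List.length_replicate, List.length_replicate]
        exact Nat.pow_le_pow_right (by norm_num) hE
      · rw [List.length_replicate, List.length_replicate]
      · rw [List.length_replicate, List.length_replicate]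
        exact CmJ_lt _
      · intro y hy
        rw [List.length_replicate]
        exact (hb t htle).1 y hy
      · intro i hi
        rw [List.length_replicate] at hi ⊢
        exact (hb t htle).2 i hi
      · rw [List.length_replicate, List.length_replicate, List.length_replicate]
        exact Nat.pow_le_pow_right (by norm_num) (Nat.le_add_left _ _)
      · rw [List.length_replicate]
        exact hv
      · intro v' h1 h2 h3
        rw [List.length_replicate] at h1 h3
        exact hmin v' ⟨h1, h2⟩ h3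
  rw [gfind_congr hgg]
  have hsp := gfind_spec (g := gSt W m) (P := fun v => W m v = true) (L := ℓ m)
    (fun t _ => gSt_iff) (fun v hv => hver.hb m v hv)
  have h1 := hsp.1.mpr (htot m)
  have h2 := hsp.2.1 h1
  have h3 : LeastSpec W (num x) (gfind (gSt W m) (List.replicate (ℓ m) ())) := by
    rw [← hm]
    refine ⟨hsp.1, fun _ => ⟨h2.1, fun v hv h => h2.2 v hv h⟩⟩
  rw [hm] at h3 ⊢
  exact hansL x _ h3

/-- the number of bad random strings -/
theorem bad_count (hver : Ver O W ℓ) {m K : ℕ} (hK : ℓ m * eJ (ℓ m) ≤ K) :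
    3 * Nat.card {ρ : List Bool // ρ.length = K ∧
      ∃ u ∈ visT (gSt W m) (List.replicate (ℓ m) ()), (∃ v, W m v = true ∧ v < u) ∧
        ¬ isoW (ℓ m) (eJ (ℓ m)) (fun v => W m v = true ∧ v < u) ρ} ≤ 2 ^ K := by
  have h1 := iso_union (n := ℓ m) (e := eJ (ℓ m)) (K := K)
    (S := fun u v => W m v = true ∧ v < u) (fun u v hv => hver.hb m v hv.1) hK
    (visT (gSt W m) (List.replicate (ℓ m) ()))
  rw [visT_length, List.length_replicate] at h1
  generalize Nat.card {ρ : List Bool // ρ.length = K ∧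
      ∃ u ∈ visT (gSt W m) (List.replicate (ℓ m) ()), (∃ v, W m v = true ∧ v < u) ∧
        ¬ isoW (ℓ m) (eJ (ℓ m)) (fun v => W m v = true ∧ v < u) ρ} = c at h1 ⊢
  rcases Nat.eq_zero_or_pos (ℓ m) with h0 | h0
  · rw [h0] at h1
    simp only [Nat.zero_mul, Nat.mul_zero, Nat.le_zero_eq] at h1
    rw [h1]
    exact Nat.zero_le _
  · have h2 : eJ (ℓ m) ≤ K := le_trans (Nat.le_mul_of_pos_left _ h0) hK
    have h3 := eJ_lo (ℓ m)
    have h4 : 3 * ((ℓ m + 1) * ℓ m) ≤ 2 ^ eJ (ℓ m) := by nlinarith
    calc 3 * c ≤ 3 * ((ℓ m + 1) * (ℓ m * 2 ^ (K - eJ (ℓ m)))) := Nat.mul_le_mul_left 3 h1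
      _ = 3 * ((ℓ m + 1) * ℓ m) * 2 ^ (K - eJ (ℓ m)) := by ring
      _ ≤ 2 ^ eJ (ℓ m) * 2 ^ (K - eJ (ℓ m)) := Nat.mul_le_mul_right _ h4
      _ = 2 ^ K := by rw [← pow_add]; congr 1; omega

end

end Pool.Agent.CKP
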